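import Pool.Agent.Lib.MP_9fe581_an.AV.Defs

/-!
# AV, Ms: the set of the good components is measurable
-/

set_option autoImplicit false
set_option linter.unusedSectionVars false
set_option warn.classDefReducibility false

open Finset MeasureTheory Filter Topology ProbabilityTheory
open scoped ComplexConjugate ENNReal

namespace Pool.Agent.Lib.MP_9fe581_an.AV

open AP
open AH (BM)

/-- the integral of a continuous function is continuous in the measure -/
private theorem ms_cont {Y : Type} [TopologicalSpace Y] [CompactSpace Y] [TopologicalSpace.MetrizableSpace Y]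
    [MeasurableSpace Y] [BorelSpace Y] (Φ : C(Y, ℝ)) :
    Continuous fun μ : ProbabilityMeasure Y => ∫ y, Φ y ∂(μ : Measure Y) := by
  rw [continuous_iff_continuousAt]
  intro μ
  have h := ProbabilityMeasure.tendsto_iff_forall_integral_tendsto.mp (tendsto_id (α := ProbabilityMeasure Y) (x := 𝓝 μ))
  exact h (BoundedContinuousFunction.mkOfCompact Φ)

/-- the same for complex functions -/
private theorem ms_contC {Y : Type} [TopologicalSpace Y] [CompactSpace Y] [TopologicalSpace.MetrizableSpace Y]
    [MeasurableSpace Y] [BorelSpace Y] (Φ : C(Y, ℂ)) :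
    Continuous fun μ : ProbabilityMeasure Y => ∫ y, Φ y ∂(μ : Measure Y) := by
  have h1 := ms_cont (⟨fun y => (Φ y).re, Complex.continuous_re.comp Φ.continuous⟩ : C(Y, ℝ))
  have h2 := ms_cont (⟨fun y => (Φ y).im, Complex.continuous_im.comp Φ.continuous⟩ : C(Y, ℝ))
  have h3 : (fun μ : ProbabilityMeasure Y => ∫ y, Φ y ∂(μ : Measure Y)) =
      fun μ : ProbabilityMeasure Y => (((∫ y, (Φ y).re ∂(μ : Measure Y) : ℝ) : ℂ) +
        ((∫ y, (Φ y).im ∂(μ : Measure Y) : ℝ) : ℂ) * Complex.I) := by
    funext μ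
    have hi : Integrable (fun y => Φ y) (μ : Measure Y) := (BoundedContinuousFunction.mkOfCompact Φ).integrable _
    exact (integral_re_add_im hi).symm
  rw [h3]
  exact (Complex.continuous_ofReal.comp h1).add ((Complex.continuous_ofReal.comp h2).mul continuous_const)

/-- the integral is continuous in the function -/
private theorem ms_contF {Y : Type} [TopologicalSpace Y] [CompactSpace Y] [TopologicalSpace.MetrizableSpace Y]
    [MeasurableSpace Y] [BorelSpace Y] (μ : Measure Y) [IsProbabilityMeasure μ] :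
    Continuous fun Φ : C(Y, ℝ) => ∫ y, Φ y ∂μ := by
  refine LipschitzWith.continuous (K := 1) (LipschitzWith.of_dist_le_mul fun f g => ?_)
  rw [NNReal.coe_one, one_mul, Real.dist_eq]
  have hi : ∀ f : C(Y, ℝ), Integrable (fun z => f z) μ :=
    fun f => (BoundedContinuousFunction.mkOfCompact f).integrable _
  rw [← integral_sub (hi f) (hi g)]
  have h3 : ∀ᵐ z ∂μ, ‖f z - g z‖ ≤ dist f g := by
    filter_upwards with z
    rw [Real.norm_eq_abs, ← Real.dist_eq]
    exact ContinuousMap.dist_apply_le_dist z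
  have h4 := norm_integral_le_of_norm_le_const h3
  simpa using h4

/-- two measures with the same integrals along a dense sequence are the same -/
private theorem ms_ext {Y : Type} [TopologicalSpace Y] [CompactSpace Y] [TopologicalSpace.MetrizableSpace Y]
    [MeasurableSpace Y] [BorelSpace Y] {g : ℕ → C(Y, ℝ)} (hg : DenseRange g) (μ ν : Measure Y)
    [IsProbabilityMeasure μ] [IsProbabilityMeasure ν] (h : ∀ j, ∫ y, g j y ∂μ = ∫ y, g j y ∂ν) : μ = ν := by
  let _ : MetricSpace Y := TopologicalSpace.metrizableSpaceMetric Y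
  have h1 : (fun Φ : C(Y, ℝ) => ∫ y, Φ y ∂μ) = fun Φ : C(Y, ℝ) => ∫ y, Φ y ∂ν :=
    hg.equalizer (ms_contF μ) (ms_contF ν) (funext h)
  refine ext_of_forall_integral_eq_of_IsFiniteMeasure fun k => ?_
  exact congrFun h1 k.toContinuousMap

/-- **measurability**: the complement is the countable union over `p, q` and `k` of `{z | κ z ∈ C}`, `C` the image under the first
marginal of the compact set of the `R^p × R^q`-invariant probability measures with `‖∫ f ⊗ conj f‖ ≥ ε + 1 / (k + 1)`; `C` is
compact; `a ↦ (∫ g_j da)_j` for a dense sequence `g_j` in `C(Z, ℝ)` is continuous and injective on `ProbabilityMeasure Z`, so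
`κ z ∈ C` iff `(∫ g_j dκ z)_j` is in a compact, so closed, subset of `ℕ → ℝ`; `z ↦ ∫ g_j dκ z` is `m0`-measurable. (Closedness of
the invariant measures and of the marginal condition: `qe_inv_closed`, `qe_marg_closed` in AP/QE.) -/
theorem meas_AA {Z : Type} [TopologicalSpace Z] [CompactSpace Z] [TopologicalSpace.MetrizableSpace Z]
    [mZ : MeasurableSpace Z] [BorelSpace Z] {R : Z → Z} (hRc : Continuous R) (f : C(Z, ℂ)) (ε : ℝ) (n : ℕ)
    {W : Type} {m0 : MeasurableSpace W} (κ : @Kernel W Z m0 mZ) (hκ : ∀ w, IsProbabilityMeasure (κ w)) :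
    MeasurableSet[m0] {w | AA R f ε n (κ w)} := by
  have hK : IsMarkovKernel κ := ⟨hκ⟩
  let mt : MetricSpace Z := TopologicalSpace.metrizableSpaceMetric Z
  obtain ⟨g, hg⟩ := TopologicalSpace.exists_dense_seq C(Z, ℝ)
  -- the complex function on the product
  set F : C(Z × Z, ℂ) := ⟨fun w => f w.1 * conj (f w.2),
    (f.continuous.comp continuous_fst).mul (Complex.continuous_conj.comp (f.continuous.comp continuous_snd))⟩ with hF
  -- the compact sets
  set K : ℕ → ℕ → ℕ → Set (ProbabilityMeasure (Z × Z)) := fun p q k =>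
    {μ | MeasurePreserving (Prod.map R^[p] R^[q]) (μ : Measure (Z × Z)) (μ : Measure (Z × Z))} ∩
      {μ | ε + 1 / ((k : ℝ) + 1) ≤ ‖∫ w, F w ∂(μ : Measure (Z × Z))‖} with hKd
  have hKc : ∀ p q k, IsCompact (K p q k) := by
    intro p q k
    refine IsClosed.isCompact (IsClosed.inter ?_ ?_)
    · exact qe_inv_closed _ ((hRc.iterate p).prodMap (hRc.iterate q))
    · exact isClosed_le continuous_const (ms_contC F).norm
  -- the coordinates
  set Ψ : ProbabilityMeasure (Z × Z) → ℕ → ℝ := fun μ j => ∫ w, g j w.1 ∂(μ : Measure (Z × Z)) with hΨ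
  have hΨc : Continuous Ψ := by
    refine continuous_pi fun j => ?_
    exact ms_cont ((g j).comp ⟨Prod.fst, continuous_fst⟩)
  have hcl : ∀ p q k, MeasurableSet (Ψ '' K p q k) := fun p q k =>
    ((hKc p q k).image hΨc).isClosed.measurableSet
  set Θ : W → ℕ → ℝ := fun w j => ∫ z, g j z ∂(κ w) with hΘ
  have hΘm : @Measurable W (ℕ → ℝ) m0 _ Θ := by
    refine measurable_pi_iff.mpr fun j => ?_
    exact ((g j).continuous.stronglyMeasurable.integral_kernel (κ := κ)).measurable
  -- the complement
  have hco : {w | AA R f ε n (κ w)}ᶜ = ⋃ p : ℕ, ⋃ q : ℕ, ⋃ k : ℕ,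
      ⋃ (_ : p.Prime ∧ q.Prime ∧ p ≠ q ∧ n ≤ q), Θ ⁻¹' (Ψ '' K p q k) := by
    ext w
    simp only [Set.mem_compl_iff, Set.mem_ofPred_eq, Set.mem_iUnion, Set.mem_preimage, Set.mem_image, exists_prop]
    constructor
    · intro h
      unfold AA at h
      push Not at h
      obtain ⟨p, q, hp, hq, hpq, hnq, lam, hl, hi, hm, hlt⟩ := h
      obtain ⟨k, hk⟩ := exists_nat_one_div_lt (sub_pos.mpr hlt)
      refine ⟨p, q, k, ⟨hp, hq, hpq, hnq⟩, ⟨lam, hl⟩, ⟨hi, ?_⟩, ?_⟩
      · show ε + 1 / ((k : ℝ) + 1) ≤ ‖∫ w, f w.1 * conj (f w.2) ∂lam‖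
        linarith
      · funext j
        show ∫ w, g j w.1 ∂lam = ∫ z, g j z ∂(κ w)
        rw [← hm, integral_map measurable_fst.aemeasurable (g j).continuous.measurable.aestronglyMeasurable]
    · rintro ⟨p, q, k, ⟨hp, hq, hpq, hnq⟩, μ, ⟨hi, hle⟩, hΨΘ⟩ hA
      have hm : (μ : Measure (Z × Z)).map Prod.fst = κ w := by
        have hpm : IsProbabilityMeasure ((μ : Measure (Z × Z)).map Prod.fst) :=
          Measure.isProbabilityMeasure_map measurable_fst.aemeasurable
        have hκw := hκ w
        refine ms_ext hg _ _ fun j => ?_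
        rw [integral_map measurable_fst.aemeasurable (g j).continuous.measurable.aestronglyMeasurable]
        exact congrFun hΨΘ j
      have h1 := hA p q hp hq hpq hnq (μ : Measure (Z × Z)) inferInstance hi hm
      have h2 : ε + 1 / ((k : ℝ) + 1) ≤ ‖∫ w, f w.1 * conj (f w.2) ∂(μ : Measure (Z × Z))‖ := hle
      have h3 : (0 : ℝ) < 1 / ((k : ℝ) + 1) := Nat.one_div_pos_of_nat
      linarith
  refine MeasurableSet.of_compl ?_
  rw [hco]
  refine MeasurableSet.iUnion fun p => MeasurableSet.iUnion fun q => MeasurableSet.iUnion fun k =>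
    MeasurableSet.iUnion fun _ => ?_
  exact hΘm (hcl p q k)

end Pool.Agent.Lib.MP_9fe581_an.AV
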