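import Pool.Agent.Lib.MP_9fe581_an.AV.Pt
import Pool.Agent.Lib.MP_9fe581_an.AV.Ms
import Pool.Agent.Lib.MP_9fe581_an.AP.QF

/-!
# AV, Cell: quasi-generic points
-/

set_option autoImplicit false
set_option linter.unusedSectionVars false
set_option warn.classDefReducibility false

open Finset MeasureTheory Filter Topology ProbabilityTheory
open scoped ComplexConjugate ENNReal

namespace Pool.Agent.Lib.MP_9fe581_an.AV

open AP
open AH (BM)

private theorem cell_inv {Z : Type} [MeasurableSpace Z] {R : Z → Z} {s : Set Z}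
    (hs : MeasurableSet[MeasurableSpace.invariants R] s) (n : ℕ) : R^[n] ⁻¹' s = s := by
  have h1 : R ⁻¹' s = s := hs.2
  induction n with
  | zero => rfl
  | succ n ih => rw [Function.iterate_succ, Set.preimage_comp, ih, h1]

/-- **quasi-generic points**: `S = R^[r]`, `W n = {z | AA S f β n (cmp S ν z)}`, `β = (ε / 2 / 4) ^ 2 / 4`, is measurable for the
`S`-invariant sets (`meas_AA` for `κ = condExpKernel ν (invariants S)` as a kernel from `invariants S`), increasing, and almost
every `z` is in some `W n` (`condKernel_ergodic`, `pt`). Cells `G i = W i \ W (i - 1)` (`disjointed W`), `assemble` (AP/QC6) for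
`R` with `q0 i k = i`: `ρ` is `Prod.map R^[p] R^[q]`-invariant, so `Prod.map S^[p] S^[q]`-invariant; `dec_cell` (AP/QF) for `S` -/
theorem cell {Z : Type} [TopologicalSpace Z] [CompactSpace Z] [TopologicalSpace.MetrizableSpace Z] [MeasurableSpace Z]
    [BorelSpace Z] {G : Set ℂ} (hG : GOK G) {R : Z → Z} (hRc : Continuous R) (hR : Aut R) {r : ℕ} (hr : 0 < r)
    (hall : ∀ b : Measure Z, IsProbabilityMeasure b → Ergodic R^[r] b → Fcl G R^[r] b) {f : C(Z, ℂ)} (hf : ∀ x, ‖f x‖ ≤ 1)
    (h0 : ∀ b : Measure Z, IsProbabilityMeasure b → MeasurePreserving R^[r] b b → ∫ x, f x ∂b = 0)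
    {ν : Measure Z} [IsProbabilityMeasure ν] (hν : MeasurePreserving R ν ν) {z : ℕ → Z} {N : ℕ → ℕ}
    (hN : Tendsto N atTop atTop) (hq : QGen R ν z N) {u : ℕ → ℂ} (hu : HD.BMult u) {ε : ℝ} (hε : 0 < ε) :
    ∀ᶠ i in atTop, ‖∑ n ∈ Icc 1 (N i), u n * f (R^[n] (z i))‖ ≤ ε * N i := by
  have hsb : StandardBorelSpace Z := by
    letI := TopologicalSpace.metrizableSpaceMetric Z
    infer_instance
  obtain ⟨S, hSdef⟩ : ∃ S : Z → Z, S = R^[r] := ⟨_, rfl⟩
  rw [← hSdef] at hall h0
  have hSc : Continuous S := hSdef ▸ hRc.iterate r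
  have hS : Aut S := hSdef ▸ hR.iter r
  have hνS : MeasurePreserving S ν ν := hSdef ▸ hν.iterate r
  set β : ℝ := (ε / 2 / 4) ^ 2 / 4 with hβ
  have hβ0 : 0 < β := by positivity
  have hmI := MeasurableSpace.invariants_le S
  set W : ℕ → Set Z := fun n => {z | AA S f β n (cmp S ν z)} with hW
  have hWm : ∀ n, MeasurableSet[MeasurableSpace.invariants S] (W n) := fun n =>
    meas_AA (m0 := MeasurableSpace.invariants S) hSc f β n (condExpKernel ν (MeasurableSpace.invariants S))
      fun w => inferInstance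
  have herg : ∀ᵐ z ∂ν, Ergodic S (cmp S ν z) := Pool.Agent.Lib.MP_e4ee3e_an.condKernel_ergodic hνS
  have hpr : ∀ z, IsProbabilityMeasure (cmp S ν z) := fun z => by
    unfold cmp
    infer_instance
  have htot : ∀ᵐ z ∂ν, ∀ n, 0 < n → Ergodic S^[n] (cmp S ν z) := by
    filter_upwards [herg] with z hz n hn
    exact fcl_pow hS.1 (hall _ (hpr z) hz) hn
  have hex : ∀ᵐ z ∂ν, ∃ n, z ∈ W n := by
    filter_upwards [herg] with z hz
    have := hpr z
    exact pt hG hSc hS hall hz f hf (h0 _ (hpr z) hz.toMeasurePreserving) hβ0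
  have hdm : ∀ n, MeasurableSet[MeasurableSpace.invariants S] (disjointed W n) := fun n =>
    MeasurableSet.disjointed (mα := MeasurableSpace.invariants S) hWm n
  refine assemble (G := disjointed W) hRc (fun i => hmI _ (hdm i)) (fun i k hik => disjoint_disjointed W hik) ?_ f hf hε
    hβ0.le hβ.le ?_ hN hq hu
  · rw [iUnion_disjointed]
    have h1 : {z | ¬ ∃ n, z ∈ W n} = (⋃ i, W i)ᶜ := by
      ext z
      simp only [Set.mem_ofPred_eq, Set.mem_compl_iff, Set.mem_iUnion]
    rw [← h1]
    exact hex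
  · intro i k
    refine ⟨i, fun p q pp qp hne hp hq' ρ i1 i2 i3 i4 => ?_⟩
    have e1 : ∀ n : ℕ, (R^[n])^[r] = S^[n] := fun n => by
      rw [hSdef, ← Function.iterate_mul, ← Function.iterate_mul, mul_comm]
    have i2' : MeasurePreserving (Prod.map S^[p] S^[q]) ρ ρ := by
      have h1 := i2.iterate r
      rw [Prod.map_iterate, e1, e1] at h1
      exact h1
    refine dec_cell hνS (htot.mono fun z hz => hz p pp.pos) i2' i3 (hmI _ (hdm i)) (hmI _ (hdm k)) (cell_inv (hdm i) p)
      (cell_inv (hdm k) q) (F := fun w => f w.1 * conj (f w.2)) ?_ (C := 1) (fun w => ?_) ?_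
    · exact (f.continuous.measurable.comp measurable_fst).mul
        (Complex.continuous_conj.measurable.comp (f.continuous.measurable.comp measurable_snd))
    · rw [norm_mul, RCLike.norm_conj]
      exact mul_le_one₀ (hf _) (norm_nonneg _) (hf _)
    · intro z hz lam j1 j2 j3
      exact (disjointed_subset W i hz : AA S f β i (cmp S ν z)) p q pp qp hne hq' lam j1 j2 j3

end Pool.Agent.Lib.MP_9fe581_an.AV
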