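import Pool.Agent.Lib.MP_9fe581_an.AQ.Uni
import Pool.Agent.Lib.MP_9fe581_an.AP.QC6
import Pool.Agent.Lib.MP_9fe581_an.AP.QE
import Pool.Agent.Lib.MP_e4ee3e_an.X03

/-!
# AV: systems all of whose ergodic measures are factors of systems in the class, with eigenvalues in one set `G`: definitions

Theorem E: let `G` satisfy `GOK`; let `R` be a homeomorphism of a compact metrizable space all of whose ergodic measures
satisfy `Fcl G R`. Then `R` is disjoint from the bounded multiplicative functions and from the Moebius function, uniformly in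
the point.
-/

set_option autoImplicit false
set_option linter.unusedSectionVars false
set_option warn.classDefReducibility false

open Finset MeasureTheory Filter Topology ProbabilityTheory
open scoped ComplexConjugate ENNReal

namespace Pool.Agent.Lib.MP_9fe581_an.AV

open AP
open AH (BM)

/-- a measurable bijection with a measurable inverse -/
def Aut {Z : Type} [MeasurableSpace Z] (R : Z → Z) : Prop :=
  Measurable R ∧ ∃ R' : Z → Z, Measurable R' ∧ (∀ z, R (R' z) = z) ∧ ∀ z, R' (R z) = z

theorem Aut.iter {Z : Type} [MeasurableSpace Z] {R : Z → Z} (h : Aut R) (n : ℕ) : Aut R^[n] := by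
  obtain ⟨h0, R', h1, h2, h3⟩ := h
  exact ⟨h0.iterate n, R'^[n], h1.iterate n, fun x => (Function.LeftInverse.iterate h2 n) x,
    fun x => (Function.LeftInverse.iterate h3 n) x⟩

/-- the condition on the eigenvalues -/
def GOK (G : Set ℂ) : Prop :=
  ∀ c ∈ G, c ≠ 1 → ∃ q0 : ℕ, ∀ q ≥ q0, q.Prime → ∀ a ∈ G, ∀ b ∈ G, c ≠ (a * b) ^ q

/-- `(Z, a, R)` is a factor of a system in the class all of whose eigenvalues are in `G` -/
def Fcl {Z : Type} [MeasurableSpace Z] (G : Set ℂ) (R : Z → Z) (a : Measure Z) : Prop :=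
  ∃ (Y : Type) (_ : MeasurableSpace Y) (_ : StandardBorelSpace Y) (m : Measure Y) (_ : IsProbabilityMeasure m)
    (S : Y → Y) (π : Y → Z), AQ.Dst m S ∧ (∀ c, AQ.Eig m S c → c ∈ G) ∧ MeasurePreserving π m a ∧
      ∀ᵐ y ∂m, π (S y) = R (π y)

/-- all invariant couplings with first marginal `a` are small on `f ⊗ conj f` -/
def AA {Z : Type} [TopologicalSpace Z] [MeasurableSpace Z] (R : Z → Z) (f : C(Z, ℂ)) (ε : ℝ) (n : ℕ) (a : Measure Z) :
    Prop :=
  ∀ p q : ℕ, p.Prime → q.Prime → p ≠ q → n ≤ q → ∀ lam : Measure (Z × Z), IsProbabilityMeasure lam →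
    MeasurePreserving (Prod.map R^[p] R^[q]) lam lam → lam.map Prod.fst = a → ‖∫ w, f w.1 * conj (f w.2) ∂lam‖ ≤ ε

/-- the ergodic components -/
noncomputable def cmp {Z : Type} [MeasurableSpace Z] [StandardBorelSpace Z] (R : Z → Z) (ν : Measure Z)
    [IsFiniteMeasure ν] (z : Z) : Measure Z := condExpKernel ν (MeasurableSpace.invariants R) z

end Pool.Agent.Lib.MP_9fe581_an.AV
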