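import Pool.Agent.Lib.MP_9fe581_an.AV.Defs

/-!
# AV, EF: ergodicity of the powers, ergodic measures of the powers
-/

set_option autoImplicit false
set_option linter.unusedSectionVars false
set_option warn.classDefReducibility false

open Finset MeasureTheory Filter Topology ProbabilityTheory
open scoped ComplexConjugate ENNReal

namespace Pool.Agent.Lib.MP_9fe581_an.AV

open AP
open AH (BM)

/-- iterates of a map that is semiconjugate almost everywhere -/
theorem ae_iter {Y Z : Type} [MeasurableSpace Y] {m : Measure Y} {S : Y → Y} (hS : MeasurePreserving S m m) {π : Y → Z}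
    {R : Z → Z} (h : ∀ᵐ y ∂m, π (S y) = R (π y)) (n : ℕ) : ∀ᵐ y ∂m, π (S^[n] y) = R^[n] (π y) := by
  induction n with
  | zero => exact Eventually.of_forall fun y => rfl
  | succ n ih =>
    have h1 : ∀ᵐ y ∂m, π (S^[n] (S y)) = R^[n] (π (S y)) := hS.quasiMeasurePreserving.ae ih
    filter_upwards [h1, h] with y h1 h2
    rw [Function.iterate_succ_apply, Function.iterate_succ_apply, h1, h2]

/-- factors of ergodic systems are ergodic -/
theorem erg_factor {Y Z : Type} [MeasurableSpace Y] [MeasurableSpace Z] {m : Measure Y} {S : Y → Y} (hS : Ergodic S m)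
    {a : Measure Z} {π : Y → Z} (hπ : MeasurePreserving π m a) {R : Z → Z} (hR : Measurable R)
    (h : ∀ᵐ y ∂m, π (S y) = R (π y)) : Ergodic R a := by
  have hmp : MeasurePreserving R a a := by
    refine ⟨hR, ?_⟩
    rw [← hπ.map_eq, Measure.map_map hR hπ.measurable]
    have e : R ∘ π =ᵐ[m] π ∘ S := by filter_upwards [h] with x hx using hx.symm
    rw [Measure.map_congr e, ← Measure.map_map hπ.measurable hS.measurable, hS.toMeasurePreserving.map_eq]
  refine ⟨hmp, ⟨fun E hE hRE => ?_⟩⟩
  have h1 : S ⁻¹' (π ⁻¹' E) =ᵐ[m] (π ⁻¹' E : Set Y) := by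
    filter_upwards [h] with y hy
    apply propext
    show π (S y) ∈ E ↔ π y ∈ E
    rw [hy]
    show π y ∈ R ⁻¹' E ↔ π y ∈ E
    rw [hRE]
  have h2 := hS.quasiErgodic.aeconst_set₀ (hπ.measurable hE).nullMeasurableSet h1
  rw [eventuallyConst_set'] at h2 ⊢
  rcases h2 with h2 | h2
  · left
    rw [ae_eq_empty] at h2 ⊢
    rw [← hπ.map_eq, Measure.map_apply hπ.measurable hE, h2]
  · right
    rw [ae_eq_univ] at h2 ⊢
    rw [← hπ.map_eq, Measure.map_apply hπ.measurable hE.compl]
    exact h2

/-- the powers are ergodic: `AQ.erg_pow` for `S`; for `E` with `(R^n)⁻¹ E = E` the set `π⁻¹ E` is `S^n`-invariant up to a null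
set, so `m (π⁻¹ E)` is `0` or `1`; `a` is the image of `m` -/
theorem fcl_pow {Z : Type} [MeasurableSpace Z] {G : Set ℂ} {R : Z → Z} (hR : Measurable R) {a : Measure Z}
    (h : Fcl G R a) {n : ℕ} (hn : 0 < n) : Ergodic R^[n] a := by
  obtain ⟨Y, _, _, m, _, S, π, hD, -, hπ, hc⟩ := h
  exact erg_factor (AQ.erg_pow hD hn) hπ (hR.iterate n) (ae_iter hD.pres hc n)

/-- **an ergodic measure of `R^q` is ergodic for `R`** if `R^q` is ergodic for all ergodic measures of `R`: `b' = (1/q) ∑_{j<q} R^j b`
is `R`-invariant (`R^q b = b`) and `b' E = b E` for invariant `E`, so `b'` is `R`-ergodic, so `R^q`-ergodic; `b ≤ q b'` is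
`R^q`-invariant, so `b = b'` (`Ergodic.eq_of_absolutelyContinuous` or `Ergodic.eq_smul_of_absolutelyContinuous`) -/
theorem erg_avg {Z : Type} [MeasurableSpace Z] {R : Z → Z} (hR : Measurable R) {q : ℕ} (hq : 0 < q) {b : Measure Z}
    [IsProbabilityMeasure b] (hb : Ergodic R^[q] b)
    (htot : ∀ b' : Measure Z, IsProbabilityMeasure b' → Ergodic R b' → Ergodic R^[q] b') : Ergodic R b := by
  have hq0 : (q : ℝ≥0∞) ≠ 0 := by exact_mod_cast hq.ne'
  have hq1 : (q : ℝ≥0∞) ≠ ∞ := ENNReal.natCast_ne_top q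
  set b' : Measure Z := (q : ℝ≥0∞)⁻¹ • ∑ j ∈ range q, b.map R^[j] with hb'
  have hap : ∀ s, MeasurableSet s → b' s = (q : ℝ≥0∞)⁻¹ * ∑ j ∈ range q, b (R^[j] ⁻¹' s) := by
    intro s hs
    rw [hb', Measure.smul_apply, smul_eq_mul, Measure.finsetSum_apply]
    congr 1
    exact sum_congr rfl fun j _ => Measure.map_apply (hR.iterate j) hs
  have hpr : IsProbabilityMeasure b' := by
    refine ⟨?_⟩
    rw [hap _ MeasurableSet.univ]
    simp only [Set.preimage_univ, measure_univ, sum_const, card_range, nsmul_eq_mul, mul_one]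
    exact ENNReal.inv_mul_cancel hq0 hq1
  have hinv : MeasurePreserving R b' b' := by
    refine ⟨hR, Measure.ext fun s hs => ?_⟩
    rw [Measure.map_apply hR hs, hap _ (hR hs), hap _ hs]
    congr 1
    have e : ∀ j, R^[j] ⁻¹' (R ⁻¹' s) = R^[j + 1] ⁻¹' s := by
      intro j
      rw [Function.iterate_succ', Set.preimage_comp]
    simp only [e]
    have h1 := sum_range_succ' (fun j => b (R^[j] ⁻¹' s)) q
    have h2 := sum_range_succ (fun j => b (R^[j] ⁻¹' s)) q
    have h3 : b (R^[q] ⁻¹' s) = b (R^[0] ⁻¹' s) := by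
      rw [hb.toMeasurePreserving.measure_preimage hs.nullMeasurableSet]
      rfl
    rw [h2, h3] at h1
    exact ((ENNReal.add_left_inj (measure_ne_top _ _)).1 h1).symm
  have hinvE : ∀ E : Set Z, MeasurableSet E → R ⁻¹' E = E → b' E = b E := by
    intro E hE hRE
    have e : ∀ j, R^[j] ⁻¹' E = E := by
      intro j
      induction j with
      | zero => rfl
      | succ j ih => rw [Function.iterate_succ, Set.preimage_comp, ih, hRE]
    rw [hap _ hE]
    simp only [e, sum_const, card_range, nsmul_eq_mul]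
    rw [← mul_assoc, ENNReal.inv_mul_cancel hq0 hq1, one_mul]
  have herg : Ergodic R b' := by
    refine ⟨hinv, ⟨fun E hE hRE => ?_⟩⟩
    have e : R^[q] ⁻¹' E = E := by
      have : ∀ j, R^[j] ⁻¹' E = E := by
        intro j
        induction j with
        | zero => rfl
        | succ j ih => rw [Function.iterate_succ, Set.preimage_comp, ih, hRE]
      exact this q
    have h2 := hb.aeconst_set hE e
    rw [eventuallyConst_set'] at h2 ⊢
    rcases h2 with h2 | h2
    · left
      rw [ae_eq_empty] at h2 ⊢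
      rw [hinvE E hE hRE, h2]
    · right
      rw [ae_eq_univ] at h2 ⊢
      rw [hinvE Eᶜ hE.compl (by rw [Set.preimage_compl, hRE]), h2]
  have herg' := htot b' hpr herg
  have hac : b ≪ b' := by
    refine Measure.AbsolutelyContinuous.mk fun s hs h0 => ?_
    rw [hap _ hs, mul_eq_zero] at h0
    rcases h0 with h0 | h0
    · exact absurd h0 (ENNReal.inv_ne_zero.2 hq1)
    · rw [sum_eq_zero_iff] at h0
      exact h0 0 (mem_range.2 hq)
  have heq := herg'.eq_of_absolutelyContinuous hb.toMeasurePreserving hac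
  rw [heq]
  exact herg

end Pool.Agent.Lib.MP_9fe581_an.AV
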