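import Pool.Agent.Lib.MP_9fe581_an.AQ.Base

/-!
# AV, Gen: the canonical factors generate: the form of the hypothesis in the statement
-/

set_option autoImplicit false
set_option linter.unusedSectionVars false
set_option warn.classDefReducibility false

open Finset MeasureTheory Filter Topology ProbabilityTheory
open scoped ComplexConjugate ENNReal

namespace Pool.Agent.Lib.MP_9fe581_an.AV

open AP
open AH (BM)

/-- **generation gives density**: for `s` in some `FF h` the integral of `f` over `s` is the integral of `E(f | FF h)`, so `0`; the sets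
in some `FF h` are a π-system generating the supremum (`FF` is increasing); `induction_on_inter` (`f` is integrable) gives all `s` in
the supremum; by `hgen` all measurable `s`; so `f = 0` a.e. (`ae_eq_zero_of_forall_setIntegral_eq_of_sigmaFinite` or similar) -/
theorem dense_of_gen {X : Type} [mX : MeasurableSpace X] {μ : Measure X} [IsProbabilityMeasure μ] {T : X → X}
    (hgen : mX ≤ @eventuallyMeasurableSpace X (⨆ h, (AQ.FF μ T h).m) (ae μ) _) {f : X → ℂ} (hf : Bd f)
    (h0 : ∀ h, ce μ (AQ.FF μ T h) f =ᵐ[μ] 0) : f =ᵐ[μ] 0 := by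
  have hi : Integrable f μ := hf.bm.integrable
  have hle : ∀ h, (AQ.FF μ T h).m ≤ mX := fun h => AQ.FF_le h
  have hsup : (⨆ h, (AQ.FF μ T h).m) ≤ mX := iSup_le hle
  have hb : ∀ (h : ℕ) (s : Set X), MeasurableSet[(AQ.FF μ T h).m] s → ∫ x in s, f x ∂μ = 0 := by
    intro h s hs
    rw [← setIntegral_condExp (hle h) hi hs]
    have h1 : ∫ x in s, (μ[f | (AQ.FF μ T h).m]) x ∂μ = ∫ x in s, (0 : X → ℂ) x ∂μ := by
      refine setIntegral_congr_ae (hle h s hs) ?_
      filter_upwards [h0 h] with x hx _
      exact hx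
    rw [h1]
    simp
  have htot : ∫ x, f x ∂μ = 0 := by
    have h1 := hb 0 Set.univ (@MeasurableSet.univ _ (AQ.FF μ T 0).m)
    rwa [setIntegral_univ] at h1
  have hpi : IsPiSystem {s : Set X | ∃ h, MeasurableSet[(AQ.FF μ T h).m] s} := by
    rintro s ⟨a, ha⟩ t ⟨b, hb⟩ _
    exact ⟨max a b, @MeasurableSet.inter _ (AQ.FF μ T (max a b)).m _ _
      (AQ.FF_mono' (le_max_left a b) s ha) (AQ.FF_mono' (le_max_right a b) t hb)⟩
  have key : ∀ s : Set X, MeasurableSet[⨆ h, (AQ.FF μ T h).m] s → ∫ x in s, f x ∂μ = 0 := by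
    intro s hs
    refine @MeasurableSpace.induction_on_inter X (⨆ h, (AQ.FF μ T h).m) (fun s _ => ∫ x in s, f x ∂μ = 0)
      {s : Set X | ∃ h, MeasurableSet[(AQ.FF μ T h).m] s}
      (MeasurableSpace.measurableSpace_iSup_eq fun h => (AQ.FF μ T h).m) hpi ?_ ?_ ?_ ?_ s hs
    · simp
    · rintro t ⟨h, ht⟩
      exact hb h t ht
    · intro t ht h1
      have h2 := integral_add_compl (hsup t ht) hi
      rw [h1, htot, zero_add] at h2
      exact h2
    · intro g hg hgm h1
      rw [integral_iUnion (fun i => hsup _ (hgm i)) hg hi.integrableOn]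
      simp [h1]
  refine hi.ae_eq_zero_of_forall_setIntegral_eq_zero fun s hs _ => ?_
  obtain ⟨t, ht, hst⟩ := hgen s hs
  rw [setIntegral_congr_set hst]
  exact key t ht

end Pool.Agent.Lib.MP_9fe581_an.AV
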