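import Pool.Agent.Lib.MP_9fe581_an.AV.MainN
import Pool.Agent.Lib.MP_9fe581_an.AV.Gen
import Pool.Agent.Lib.MP_9fe581_an.AU.TopR
import Pool.Agent.Lib.MP_9fe581_an.AQ.TwK

/-! # AV, Fin6: theorems (D) and (E) in the form of the hand-in -/

set_option autoImplicit false

open Finset MeasureTheory Filter Topology ProbabilityTheory
open scoped ComplexConjugate ENNReal

namespace Pool.Agent.Lib.MP_9fe581_an.AV

open AP

/-- a continuous function with mean zero for all ergodic measures has mean zero for all invariant measures -/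
theorem zero_of_erg {Z : Type} [TopologicalSpace Z] [CompactSpace Z] [TopologicalSpace.MetrizableSpace Z]
    [MeasurableSpace Z] [BorelSpace Z] {S : Z → Z} {f : C(Z, ℂ)}
    (h0 : ∀ b : Measure Z, IsProbabilityMeasure b → Ergodic S b → ∫ x, f x ∂b = 0)
    {b : Measure Z} (hb : IsProbabilityMeasure b) (hS : MeasurePreserving S b b) : ∫ x, f x ∂b = 0 := by
  have hsb : StandardBorelSpace Z := by
    let _ : MetricSpace Z := TopologicalSpace.metrizableSpaceMetric Z
    have : PolishSpace Z := inferInstance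
    infer_instance
  have hm := MeasurableSpace.invariants_le S
  have hint : Integrable f b := Integrable.of_bound f.continuous.measurable.aestronglyMeasurable ‖f‖
    (Eventually.of_forall f.norm_coe_le_norm)
  have h1 := Pool.Agent.Lib.MP_e4ee3e_an.condKernel_ergodic hS
  have h2 : (fun z => ∫ x, f x ∂(condExpKernel b (MeasurableSpace.invariants S) z)) =ᵐ[b] fun _ => 0 := by
    filter_upwards [h1] with z hz
    exact h0 _ inferInstance hz
  have h3 := condExp_ae_eq_integral_condExpKernel hm hint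
  calc ∫ x, f x ∂b = ∫ x, (b[f | MeasurableSpace.invariants S]) x ∂b := (integral_condExp hm).symm
    _ = 0 := by
      rw [integral_congr_ae (h3.trans h2)]
      simp

/-- theorem (E) for a family -/
theorem fam_E {Z : Type} [TopologicalSpace Z] [CompactSpace Z] [TopologicalSpace.MetrizableSpace Z]
    [MeasurableSpace Z] [BorelSpace Z] {R : Z → Z} (hRc : Continuous R) {r : ℕ} (hr : 0 < r)
    {ι : Type} {Y : ι → Type} [∀ i, MeasurableSpace (Y i)] [∀ i, StandardBorelSpace (Y i)]
    {m : ∀ i, Measure (Y i)} {S : ∀ i, Y i → Y i} (hm : ∀ i, IsProbabilityMeasure (m i))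
    (hD : ∀ i, AQ.Dst (m i) (S i))
    (hK : ∀ i c, AQ.Eig (m i) (S i) c → c ≠ 1 → ∃ q0 : ℕ, ∀ q ≥ q0, q.Prime → ∀ i' a, AQ.Eig (m i') (S i') a → ∀ k b,
      AQ.Eig (m k) (S k) b → c ≠ (a * b) ^ q)
    (hall : ∀ a : Measure Z, IsProbabilityMeasure a → Ergodic R^[r] a → ∃ i, AU.IsFac (S i) (m i) R^[r] a)
    (f : C(Z, ℂ)) (h0 : ∀ b : Measure Z, IsProbabilityMeasure b → Ergodic R^[r] b → ∫ x, f x ∂b = 0) :
    HD.UnifOrth R f := by
  intro u hu ε hε
  refine main_zero_n (G := {c | ∃ i, AQ.Eig (m i) (S i) c}) ?_ hRc hr ?_ f (fun b hb hS => zero_of_erg h0 hb hS) hu hε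
  · rintro c ⟨i, hc⟩ hc1
    obtain ⟨q0, h⟩ := hK i c hc hc1
    refine ⟨q0, fun q hq hp => ?_⟩
    rintro a ⟨i', ha⟩ b ⟨k, hb⟩
    exact h q hq hp i' a ha k b hb
  · intro a ha he
    obtain ⟨i, φ, h1, h2⟩ := hall a ha he
    exact ⟨Y i, inferInstance, inferInstance, m i, hm i, S i, φ, hD i, fun c hc => ⟨i, hc⟩, h1, h2⟩

end Pool.Agent.Lib.MP_9fe581_an.AV
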