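import Pool.Agent.Lib.MP_9fe581_an.AQ.Base

/-!
# AV, GenB: density gives the generation by the canonical factors
-/

set_option autoImplicit false
set_option linter.unusedSectionVars false
set_option warn.classDefReducibility false

open Finset MeasureTheory Filter Topology ProbabilityTheory
open scoped ComplexConjugate ENNReal

namespace Pool.Agent.Lib.MP_9fe581_an.AV

open AP
open AH (BM)

/-- **density gives generation**: `M` the supremum of the canonical factors, `f = 1_s` minus a bounded representative of `E(1_s | M)`;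
`E(f | FF h) = 0` by the tower property, so `f = 0` a.e.; so `s` agrees a.e. with the set where the representative is `> 1/2` -/
theorem gen_of_dense {X : Type} [mX : MeasurableSpace X] {μ : Measure X} [IsProbabilityMeasure μ] {T : X → X}
    (hd : ∀ f : X → ℂ, Bd f → (∀ h, ce μ (AQ.FF μ T h) f =ᵐ[μ] 0) → f =ᵐ[μ] 0) :
    mX ≤ @eventuallyMeasurableSpace X (⨆ h, (AQ.FF μ T h).m) (ae μ) _ := by
  intro s hs
  have hle : ∀ h, (AQ.FF μ T h).m ≤ mX := fun h => AQ.FF_le h
  have hsup : (⨆ h, (AQ.FF μ T h).m) ≤ mX := iSup_le hle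
  have hF : Bd (s.indicator fun _ => (1 : ℂ)) := by
    refine ⟨measurable_const.indicator hs, 1, fun x => ?_⟩
    by_cases hx : x ∈ s
    · simp [hx]
    · simp [hx]
  obtain ⟨g, g1, g2, g3⟩ := ce_rep (μ := μ) (D := ⟨⨆ h, (AQ.FF μ T h).m⟩) hsup hF.bm
  have hsub : Bd (fun x => s.indicator (fun _ => (1 : ℂ)) x - g x) := by
    obtain ⟨C, hC⟩ := hF.bdd
    obtain ⟨C', hC'⟩ := g2.bdd
    exact ⟨hF.meas.sub g2.meas, C + C', fun x => (norm_sub_le _ _).trans (add_le_add (hC x) (hC' x))⟩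
  have key : (fun x => s.indicator (fun _ => (1 : ℂ)) x - g x) =ᵐ[μ] 0 := by
    refine hd _ hsub fun h => ?_
    have h1 := ce_sub (μ := μ) (D := AQ.FF μ T h) hF.bm g2.bm
    have h2 := ce_congr (μ := μ) (D := AQ.FF μ T h) g3
    have h3 : ce μ (AQ.FF μ T h) (ce μ ⟨⨆ h, (AQ.FF μ T h).m⟩ (s.indicator fun _ => (1 : ℂ))) =ᵐ[μ]
        ce μ (AQ.FF μ T h) (s.indicator fun _ => (1 : ℂ)) :=
      condExp_condExp_of_le (le_iSup (fun h => (AQ.FF μ T h).m) h) hsup
    filter_upwards [h1, h2, h3] with x a b c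
    have a' : ce μ (AQ.FF μ T h) (fun x => s.indicator (fun _ => (1 : ℂ)) x - g x) x =
      ce μ (AQ.FF μ T h) (s.indicator fun _ => (1 : ℂ)) x - ce μ (AQ.FF μ T h) g x := a
    rw [a', b, c, sub_self]
    rfl
  have hre : Measurable[⨆ h, (AQ.FF μ T h).m] fun x => (g x).re := Complex.measurable_re.comp g1
  refine ⟨{x | (1 / 2 : ℝ) < (g x).re}, hre measurableSet_Ioi, ?_⟩
  filter_upwards [key] with x hx
  have hx' : g x = s.indicator (fun _ => (1 : ℂ)) x := (sub_eq_zero.1 hx).symm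
  refine propext ?_
  change x ∈ s ↔ (1 / 2 : ℝ) < (g x).re
  by_cases hxs : x ∈ s
  · rw [hx', Set.indicator_of_mem hxs]
    norm_num [hxs]
  · rw [hx', Set.indicator_of_notMem hxs]
    norm_num [hxs]

end Pool.Agent.Lib.MP_9fe581_an.AV
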