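import Pool.Agent.Lib.MP_9fe581_an.AQ.TwK

/-!
# AV, Grp: the group of the eigenvalues of a tower
-/

set_option autoImplicit false
set_option linter.unusedSectionVars false
set_option warn.classDefReducibility false

open Finset MeasureTheory Filter Topology ProbabilityTheory
open scoped ComplexConjugate

namespace Pool.Agent.Lib.MP_9fe581_an.AV

open AP
open AH (BM)
open HT (TX mX ch)

private theorem grp_rep {κ : Type} {lev : κ → ℕ} {ψ : κ → TX κ → UnitAddCircle} {c : Circle}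
    (hc : c ∈ Subgroup.closure {c : Circle | ∃ i, lev i = 0 ∧ c = AddCircle.toCircle (ψ i 0)}) :
    ∃ m : κ →₀ ℤ, (∀ i, m i ≠ 0 → lev i = 0) ∧ c = AddCircle.toCircle (cocI ψ m 0) := by
  classical
  induction hc using Subgroup.closure_induction with
  | mem x hx =>
    obtain ⟨i, hi, rfl⟩ := hx
    refine ⟨Finsupp.single i 1, fun j hj => ?_, ?_⟩
    · rw [Finsupp.single_apply] at hj
      by_cases h : i = j
      · rw [← h]; exact hi
      · rw [if_neg h] at hj; exact absurd rfl hj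
    · unfold cocI
      rw [Finsupp.sum_single_index (zero_zsmul _), one_zsmul]
  | one =>
    refine ⟨0, fun i hi => absurd rfl hi, ?_⟩
    simp [cocI]
  | mul x y _ _ ihx ihy =>
    obtain ⟨m, hm, ex⟩ := ihx
    obtain ⟨m', hm', ey⟩ := ihy
    refine ⟨m + m', fun i hi => ?_, ?_⟩
    · by_contra h
      apply hi
      have h1 : m i = 0 := by
        by_contra h2; exact h (hm i h2)
      have h2 : m' i = 0 := by
        by_contra h2; exact h (hm' i h2)
      rw [Finsupp.add_apply, h1, h2, add_zero]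
    · have : cocI ψ (m + m') 0 = cocI ψ m 0 + cocI ψ m' 0 := by
        unfold cocI
        rw [Finsupp.sum_add_index' (fun i => zero_zsmul _) (fun i a b => add_zsmul _ _ _)]
      rw [this, AddCircle.toCircle_add, ex, ey]
  | inv x _ ihx =>
    obtain ⟨m, hm, ex⟩ := ihx
    refine ⟨-m, fun i hi => hm i fun h => hi ?_, ?_⟩
    · rw [Finsupp.neg_apply, h, neg_zero]
    · have : cocI ψ (-m) 0 = -cocI ψ m 0 := by
        unfold cocI
        rw [Finsupp.sum_neg_index (fun i => zero_zsmul _)]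
        simp [Finsupp.sum]
      rw [this, AddCircle.toCircle_neg, ex]

private theorem grp_mem {κ : Type} {lev : κ → ℕ} {ψ : κ → TX κ → UnitAddCircle} {G : AddSubgroup UnitAddCircle}
    (hG : ∀ i, lev i = 0 → ψ i 0 ∈ G) {m : κ →₀ ℤ} (hm : ∀ i, m i ≠ 0 → lev i = 0) : cocI ψ m 0 ∈ G := by
  unfold cocI Finsupp.sum
  refine sum_mem fun i hi => G.zsmul_mem (hG i (hm i (Finsupp.mem_support_iff.1 hi))) _

private theorem grp_nsmul {κ : Type} (ψ : κ → TX κ → UnitAddCircle) (n : ℕ) (m : κ →₀ ℤ) :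
    cocI ψ (n • m) 0 = n • cocI ψ m 0 := by
  have h1 : n • m = (n : ℤ) • m := (natCast_zsmul m n).symm
  unfold cocI
  rw [h1, Finsupp.sum_smul_index (fun i => zero_zsmul _), Finsupp.smul_sum]
  refine Finsupp.sum_congr fun i _ => ?_
  rw [mul_smul, natCast_zsmul]

theorem itow_grp {κ : Type} {lev : κ → ℕ} {ψ : κ → TX κ → UnitAddCircle} {ν : Measure (TX κ)} {T : TX κ → TX κ}
    (h : ITow lev ψ ν T) :
    ∀ c ∈ Subgroup.closure {c : Circle | ∃ i, lev i = 0 ∧ c = AddCircle.toCircle (ψ i 0)}, c ≠ 1 →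
      {q : ℕ | q.Prime ∧ ∃ a ∈ Subgroup.closure {c : Circle | ∃ i, lev i = 0 ∧ c = AddCircle.toCircle (ψ i 0)},
        c = a ^ q}.Finite := by
  intro c hc hc1
  obtain ⟨m, hm, hcm⟩ := grp_rep hc
  have hm0 : m ≠ 0 := by
    rintro rfl
    apply hc1
    rw [hcm]
    simp [cocI]
  set S : Set UnitAddCircle := (fun i => ψ i 0) '' {i | lev i ≤ 0} with hS
  have hSf : S.Finite := (h.fin 0).image _
  set G : AddSubgroup UnitAddCircle := AddSubgroup.closure S with hG
  have hG1 : ∀ i, lev i = 0 → ψ i 0 ∈ G := fun i hi =>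
    AddSubgroup.subset_closure ⟨i, hi.le, rfl⟩
  have hfg : AddGroup.FG G := (AddGroup.fg_iff_addSubgroup_fg G).2 ⟨hSf.toFinset, by rw [hSf.coe_toFinset]⟩
  have hfin : Module.Finite ℤ G := Module.Finite.iff_addGroup_fg.2 hfg
  set x : G := ⟨cocI ψ m 0, grp_mem hG1 hm⟩ with hx
  have hx0 : ∀ n : ℕ, 0 < n → n • x ≠ 0 := by
    intro n hn h0
    have h1 : n • cocI ψ m 0 = 0 := congrArg Subtype.val h0
    rw [← grp_nsmul] at h1
    refine h.base (n • m) ?_ ?_ h1
    · intro h2
      rcases smul_eq_zero.1 h2 with h3 | h3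
      · exact hn.ne' h3
      · exact hm0 h3
    · intro i hi
      refine hm i fun h2 => hi ?_
      rw [Finsupp.smul_apply, h2, smul_zero]
  obtain ⟨q0, hq0⟩ := AQ.fg_div hx0
  refine (Set.finite_lt_nat q0).subset ?_
  rintro q ⟨_, a, ha, hca⟩
  show q < q0
  by_contra hq
  obtain ⟨ma, hma, ea⟩ := grp_rep ha
  refine hq0 q (not_lt.1 hq) ⟨cocI ψ ma 0, grp_mem hG1 hma⟩ ?_
  apply Subtype.ext
  show q • cocI ψ ma 0 = cocI ψ m 0
  apply AddCircle.injective_toCircle (one_ne_zero' ℝ)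
  rw [← hcm, hca, ea, AddCircle.toCircle_nsmul]

theorem itow_eig {κ : Type} {lev : κ → ℕ} {ψ : κ → TX κ → UnitAddCircle} {ν : Measure (TX κ)} {T : TX κ → TX κ}
    (h : ITow lev ψ ν T) {c : Circle} (hc : AQ.Eig ν T (c : ℂ)) :
    c ∈ Subgroup.closure {c : Circle | ∃ i, lev i = 0 ∧ c = AddCircle.toCircle (ψ i 0)} := by
  obtain ⟨m, hm, hcm⟩ := AQ.tw_ieig h hc
  have hc' : c = AddCircle.toCircle (cocI ψ m 0) := Circle.ext hcm
  rw [hc']
  set H : Subgroup Circle := Subgroup.closure {c : Circle | ∃ i, lev i = 0 ∧ c = AddCircle.toCircle (ψ i 0)} with hH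
  have key : ∀ (s : Finset κ), (∀ i ∈ s, lev i = 0) → AddCircle.toCircle (∑ i ∈ s, m i • ψ i 0) ∈ H := by
    classical
    intro s
    induction s using Finset.induction_on with
    | empty => intro _; rw [Finset.sum_empty, AddCircle.toCircle_zero]; exact H.one_mem
    | insert a s ha ih =>
      intro hs
      rw [Finset.sum_insert ha, AddCircle.toCircle_add]
      refine H.mul_mem ?_ (ih fun i hi => hs i (Finset.mem_insert_of_mem hi))
      rw [AddCircle.toCircle_zsmul]
      exact H.zpow_mem (Subgroup.subset_closure ⟨a, hs a (Finset.mem_insert_self _ _), rfl⟩) _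
  exact key m.support fun i hi => hm i (Finsupp.mem_support_iff.1 hi)

end Pool.Agent.Lib.MP_9fe581_an.AV
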