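import Pool.Agent.Lib.MP_e4ee3e_an.X03

/-!
# AV, Lift: joinings of factors lift to joinings; ergodic components of joinings

`exists_lift`: the relatively independent extension of an invariant measure on a product of two factors.
`exists_erg_comp`: for a joining of two ergodic systems (standard Borel) there is an ergodic joining with at least the
same integral of a given bounded function.
-/

set_option autoImplicit false
set_option linter.unusedSectionVars false

open MeasureTheory ProbabilityTheory Filter Topology

namespace Pool.Agent.Lib.MP_9fe581_an.AV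

section Lift

variable {X Z : Type} [MeasurableSpace X] [StandardBorelSpace X] [MeasurableSpace Z] [StandardBorelSpace Z]

/-- the disintegration over a factor -/
private noncomputable def dis [Nonempty X] (μ : Measure X) [IsProbabilityMeasure μ] (π : X → Z) : Kernel Z X :=
  condDistrib id π μ

private instance [Nonempty X] (μ : Measure X) [IsProbabilityMeasure μ] (π : X → Z) : IsMarkovKernel (dis μ π) := by
  unfold dis; infer_instance

private theorem dis_comp [Nonempty X] (μ : Measure X) [IsProbabilityMeasure μ] (π : X → Z) (hπ : Measurable π) :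
    dis μ π ∘ₘ (μ.map π) = μ := by
  unfold dis
  rw [condDistrib_comp_map hπ.aemeasurable aemeasurable_id, Measure.map_id]

private theorem dis_map [Nonempty X] [Nonempty Z] (μ : Measure X) [IsProbabilityMeasure μ] (π : X → Z)
    (hπ : Measurable π) : ∀ᵐ z ∂(μ.map π), (dis μ π z).map π = Measure.dirac z := by
  have h1 : condDistrib (π ∘ (id : X → X)) π μ =ᵐ[μ.map π] (condDistrib (id : X → X) π μ).map π :=
    condDistrib_comp π aemeasurable_id hπ
  have h2 : condDistrib ((id : Z → Z) ∘ π) π μ =ᵐ[μ.map π] Kernel.deterministic id measurable_id :=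
    condDistrib_comp_self π measurable_id
  have e : π ∘ (id : X → X) = (id : Z → Z) ∘ π := rfl
  rw [e] at h1
  filter_upwards [h1, h2] with z h1 h2
  rw [h1, Kernel.map_apply _ hπ, Kernel.deterministic_apply] at h2
  exact h2

private theorem dis_equiv [Nonempty X] (μ : Measure X) [IsProbabilityMeasure μ] (π : X → Z) (hπ : Measurable π)
    (T : X → X) (hT : MeasurePreserving T μ μ) (R : Z ≃ᵐ Z) (h : ∀ᵐ x ∂μ, π (T x) = R (π x)) :
    ∀ᵐ z ∂(μ.map π), (dis μ π z).map T = dis μ π (R z) := by
  -- the transported kernel
  set κ' : Kernel Z X := ((dis μ π).map T).comap R.symm R.symm.measurable with hκ'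
  have hmk : IsMarkovKernel ((dis μ π).map T) := Kernel.IsMarkovKernel.map _ hT.measurable
  have hmk' : IsMarkovKernel κ' := by rw [hκ']; infer_instance
  have hR : (μ.map π).map R = μ.map π := by
    rw [Measure.map_map R.measurable hπ]
    have e : R ∘ π =ᵐ[μ] π ∘ T := by filter_upwards [h] with x hx using hx.symm
    rw [Measure.map_congr e, ← Measure.map_map hπ hT.measurable, hT.map_eq]
  have hRp : MeasurePreserving R (μ.map π) (μ.map π) := ⟨R.measurable, hR⟩
  have hcp : μ.map (fun x => (π x, id x)) = μ.map π ⊗ₘ κ' := by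
    have h1 : μ.map (fun x => (π x, id x)) = (μ.map (fun x => (π x, id x))).map (Prod.map R T) := by
      rw [Measure.map_map (R.measurable.prodMap hT.measurable) (hπ.prodMk measurable_id)]
      have e : Prod.map R T ∘ (fun x => (π x, id x)) =ᵐ[μ] (fun x => (π x, id x)) ∘ T := by
        filter_upwards [h] with x hx
        simp only [Function.comp, Prod.map, id, hx]
      rw [Measure.map_congr e, ← Measure.map_map (hπ.prodMk measurable_id) hT.measurable, hT.map_eq]
    rw [h1, ← compProd_map_condDistrib (μ := μ) (X := π) (Y := id) aemeasurable_id]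
    change ((μ.map π) ⊗ₘ (dis μ π)).map (Prod.map R T) = _
    have hfin : IsFiniteMeasure (μ.map π) := Measure.isFiniteMeasure_map μ π
    have hpr : IsProbabilityMeasure (μ.map π) := Measure.isProbabilityMeasure_map hπ.aemeasurable
    refine Measure.ext fun s hs => ?_
    rw [Measure.map_apply (R.measurable.prodMap hT.measurable) hs,
      Measure.compProd_apply (R.measurable.prodMap hT.measurable hs), Measure.compProd_apply hs]
    have hf : Measurable fun z => κ' z (Prod.mk z ⁻¹' s) := Kernel.measurable_kernel_prodMk_left hs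
    rw [← hRp.lintegral_comp hf]
    refine lintegral_congr fun z => ?_
    rw [hκ', Kernel.comap_apply, R.symm_apply_apply, Kernel.map_apply' _ hT.measurable _ (measurable_prodMk_left hs)]
    rfl
  have h2 := condDistrib_ae_eq_of_measure_eq_compProd (μ := μ) π (Y := id) aemeasurable_id hcp
  have h3 : ∀ᵐ z ∂(μ.map π), dis μ π (R z) = κ' (R z) := by
    have := hRp.quasiMeasurePreserving.ae h2
    exact this
  filter_upwards [h3] with z hz
  rw [hz, hκ', Kernel.comap_apply, R.symm_apply_apply, Kernel.map_apply _ hT.measurable]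

end Lift

/-- **joinings of factors lift** (relatively independent extension) -/
theorem exists_lift {X Y Z W : Type} [MeasurableSpace X] [StandardBorelSpace X] [MeasurableSpace Y] [StandardBorelSpace Y]
    [MeasurableSpace Z] [StandardBorelSpace Z] [MeasurableSpace W] [StandardBorelSpace W]
    (μ : Measure X) [IsProbabilityMeasure μ] (μ' : Measure Y) [IsProbabilityMeasure μ']
    (T : X → X) (hT : MeasurePreserving T μ μ) (T' : Y → Y) (hT' : MeasurePreserving T' μ' μ')
    (R : Z ≃ᵐ Z) (S : W ≃ᵐ W) (π : X → Z) (hπ : Measurable π) (π' : Y → W) (hπ' : Measurable π')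
    (h : ∀ᵐ x ∂μ, π (T x) = R (π x)) (h' : ∀ᵐ y ∂μ', π' (T' y) = S (π' y))
    (lam : Measure (Z × W)) [IsProbabilityMeasure lam] (hl : MeasurePreserving (Prod.map R S) lam lam)
    (h1 : lam.map Prod.fst = μ.map π) (h2 : lam.map Prod.snd = μ'.map π') :
    ∃ kap : Measure (X × Y), IsProbabilityMeasure kap ∧ MeasurePreserving (Prod.map T T') kap kap ∧
      kap.map Prod.fst = μ ∧ kap.map Prod.snd = μ' ∧ kap.map (Prod.map π π') = lam := by
  have nX : Nonempty X := nonempty_of_isProbabilityMeasure μ
  have nY : Nonempty Y := nonempty_of_isProbabilityMeasure μ'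
  have nZ : Nonempty Z := nX.map π
  have nW : Nonempty W := nY.map π'
  set K : Kernel (Z × W) (X × Y) := (dis μ π) ∥ₖ (dis μ' π') with hK
  have hKm : IsMarkovKernel K := by rw [hK]; infer_instance
  have hKap : ∀ z, K z = (dis μ π z.1).prod (dis μ' π' z.2) := fun z => by
    rw [hK, Kernel.parallelComp_apply]
  have a1 : ∀ᵐ z ∂lam, (dis μ π z.1).map π = Measure.dirac z.1 := by
    have := dis_map μ π hπ
    rw [← h1] at this
    exact ae_of_ae_map measurable_fst.aemeasurable this
  have a2 : ∀ᵐ z ∂lam, (dis μ' π' z.2).map π' = Measure.dirac z.2 := by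
    have := dis_map μ' π' hπ'
    rw [← h2] at this
    exact ae_of_ae_map measurable_snd.aemeasurable this
  have b1 : ∀ᵐ z ∂lam, (dis μ π z.1).map T = dis μ π (R z.1) := by
    have := dis_equiv μ π hπ T hT R h
    rw [← h1] at this
    exact ae_of_ae_map measurable_fst.aemeasurable this
  have b2 : ∀ᵐ z ∂lam, (dis μ' π' z.2).map T' = dis μ' π' (S z.2) := by
    have := dis_equiv μ' π' hπ' T' hT' S h'
    rw [← h2] at this
    exact ae_of_ae_map measurable_snd.aemeasurable this
  refine ⟨K ∘ₘ lam, inferInstance, ⟨hT.measurable.prodMap hT'.measurable, ?_⟩, ?_, ?_, ?_⟩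
  · -- invariance
    refine Measure.ext fun s hs => ?_
    rw [Measure.map_apply (hT.measurable.prodMap hT'.measurable) hs,
      Measure.bind_apply (hT.measurable.prodMap hT'.measurable hs) K.aemeasurable,
      Measure.bind_apply hs K.aemeasurable]
    have hf : Measurable fun z => K z s := Kernel.measurable_coe K hs
    rw [← hl.lintegral_comp hf]
    refine lintegral_congr_ae ?_
    filter_upwards [b1, b2] with z hz1 hz2
    rw [hKap, hKap]
    simp only [Prod.map_fst, Prod.map_snd]
    rw [← hz1, ← hz2, Measure.map_prod_map _ _ hT.measurable hT'.measurable,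
      Measure.map_apply (hT.measurable.prodMap hT'.measurable) hs]
  · -- first marginal
    refine Measure.ext fun s hs => ?_
    rw [Measure.map_apply measurable_fst hs, Measure.bind_apply (measurable_fst hs) K.aemeasurable]
    have e : ∀ z : Z × W, K z (Prod.fst ⁻¹' s) = dis μ π z.1 s := by
      intro z
      rw [hKap, ← Set.prod_univ, Measure.prod_prod, measure_univ, mul_one]
    simp only [e]
    have hf : Measurable fun z => dis μ π z s := Kernel.measurable_coe _ hs
    rw [← lintegral_map hf measurable_fst, h1]
    conv_rhs => rw [← dis_comp μ π hπ]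
    rw [Measure.bind_apply hs (Kernel.aemeasurable _)]
  · refine Measure.ext fun s hs => ?_
    rw [Measure.map_apply measurable_snd hs, Measure.bind_apply (measurable_snd hs) K.aemeasurable]
    have e : ∀ z : Z × W, K z (Prod.snd ⁻¹' s) = dis μ' π' z.2 s := by
      intro z
      rw [hKap, ← Set.univ_prod, Measure.prod_prod, measure_univ, one_mul]
    simp only [e]
    have hf : Measurable fun z => dis μ' π' z s := Kernel.measurable_coe _ hs
    rw [← lintegral_map hf measurable_snd, h2]
    conv_rhs => rw [← dis_comp μ' π' hπ']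
    rw [Measure.bind_apply hs (Kernel.aemeasurable _)]
  · refine Measure.ext fun s hs => ?_
    rw [Measure.map_apply (hπ.prodMap hπ') hs, Measure.bind_apply (hπ.prodMap hπ' hs) K.aemeasurable]
    have e : ∀ᵐ z ∂lam, K z (Prod.map π π' ⁻¹' s) = s.indicator 1 z := by
      filter_upwards [a1, a2] with z hz1 hz2
      rw [hKap, ← Measure.map_apply (hπ.prodMap hπ') hs, ← Measure.map_prod_map _ _ hπ hπ', hz1, hz2,
        Measure.dirac_prod_dirac, Measure.dirac_apply' _ hs]
    rw [lintegral_congr_ae e, lintegral_indicator_one hs]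

/-- a marginal of a component -/
private theorem comp_marg {X V : Type} [MeasurableSpace X] [StandardBorelSpace X] [MeasurableSpace V]
    [StandardBorelSpace V] (μ : Measure X) [IsProbabilityMeasure μ] {A : X → X} (eA : Ergodic A μ) {U : V → V}
    (kap : Measure V) [IsProbabilityMeasure kap] (hk : MeasurePreserving U kap kap) {g : V → X} (hg : Measurable g)
    (hgU : ∀ v, g (U v) = A (g v)) (h1 : kap.map g = μ) :
    ∀ᵐ w ∂kap, (condExpKernel kap (MeasurableSpace.invariants U) w).map g = μ := by
  have hm := MeasurableSpace.invariants_le U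
  obtain ⟨F, hF, hpi, hgen⟩ := MP_e4ee3e_an.x02_gen X
  have key : ∀ q, ∀ᵐ w ∂kap, condExpKernel kap (MeasurableSpace.invariants U) w (g ⁻¹' F q) = μ (F q) := by
    intro q
    have hgF : MeasurableSet (g ⁻¹' F q) := hg (hF q)
    have c1 := condExpKernel_ae_eq_condExp (μ := kap) hm hgF
    have c2 : (fun _ : V => μ.real (F q)) =ᵐ[kap]
        condExp (MeasurableSpace.invariants U) kap ((g ⁻¹' F q).indicator fun _ => (1 : ℝ)) := by
      refine ae_eq_condExp_of_forall_setIntegral_eq hm ((integrable_const 1).indicator hgF) ?_ ?_ ?_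
      · intro s _ _
        exact (integrable_const _).integrableOn
      · intro s hs _
        -- the marginal of the restriction
        have hs1 : MeasurableSet s := hm s hs
        have hs2 : U ⁻¹' s = s := hs.2
        have p1 : MeasurePreserving U (kap.restrict s) (kap.restrict s) := by
          have := hk.restrict_preimage hs1
          rwa [hs2] at this
        have p2 : MeasurePreserving A ((kap.restrict s).map g) ((kap.restrict s).map g) := by
          refine ⟨eA.measurable, ?_⟩
          rw [Measure.map_map eA.measurable hg]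
          have e : A ∘ g = g ∘ U := funext fun v => (hgU v).symm
          rw [e, ← Measure.map_map hg p1.measurable, p1.map_eq]
        have p3 : (kap.restrict s).map g ≪ μ := by
          rw [← h1]
          exact (Measure.absolutelyContinuous_of_le Measure.restrict_le_self).map hg
        have p4 : IsFiniteMeasure ((kap.restrict s).map g) := Measure.isFiniteMeasure_map _ _
        obtain ⟨c, hc⟩ := eA.eq_smul_of_absolutelyContinuous p2 p3
        have hcs : c = kap s := by
          have := congrArg (fun m : Measure X => m Set.univ) hc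
          simp only [Measure.smul_apply, measure_univ, smul_eq_mul, mul_one] at this
          rw [Measure.map_apply hg MeasurableSet.univ, Set.preimage_univ, Measure.restrict_apply MeasurableSet.univ,
            Set.univ_inter] at this
          exact this.symm
        have hq : kap (s ∩ g ⁻¹' F q) = kap s * μ (F q) := by
          have := congrArg (fun m : Measure X => m (F q)) hc
          simp only [Measure.smul_apply, smul_eq_mul] at this
          rw [Measure.map_apply hg (hF q), Measure.restrict_apply hgF, hcs, Set.inter_comm] at this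
          exact this
        rw [setIntegral_indicator hgF]
        simp only [integral_const, MeasurableSet.univ, measureReal_restrict_apply, Set.univ_inter, smul_eq_mul, mul_one]
        rw [measureReal_def, measureReal_def, measureReal_def, hq, ENNReal.toReal_mul]
      · exact aestronglyMeasurable_const
    filter_upwards [c1, c2] with w w1 w2
    rw [← w2, measureReal_def, measureReal_def] at w1
    exact (ENNReal.toReal_eq_toReal_iff' (measure_ne_top _ _) (measure_ne_top _ _)).1 w1
  filter_upwards [ae_all_iff.2 key] with w hw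
  have : IsProbabilityMeasure ((condExpKernel kap (MeasurableSpace.invariants U) w).map g) :=
    Measure.isProbabilityMeasure_map hg.aemeasurable
  refine ext_of_generate_finite (Set.range F) hgen hpi ?_ ?_
  · rintro _ ⟨q, rfl⟩
    rw [Measure.map_apply hg (hF q)]
    exact hw q
  · rw [measure_univ, measure_univ]

/-- **ergodic joinings dominate joinings**, standard Borel systems -/
theorem exists_erg_comp {X Y : Type} [MeasurableSpace X] [StandardBorelSpace X] [MeasurableSpace Y]
    [StandardBorelSpace Y] (μ : Measure X) [IsProbabilityMeasure μ] (μ' : Measure Y) [IsProbabilityMeasure μ']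
    {A : X → X} {B : Y → Y} (eA : Ergodic A μ) (eB : Ergodic B μ') (kap : Measure (X × Y)) [IsProbabilityMeasure kap]
    (hk : MeasurePreserving (Prod.map A B) kap kap) (h1 : kap.map Prod.fst = μ) (h2 : kap.map Prod.snd = μ')
    (Φ : X × Y → ℝ) (hΦ : Measurable Φ) (C : ℝ) (hC : ∀ z, |Φ z| ≤ C) :
    ∃ lam : Measure (X × Y), IsProbabilityMeasure lam ∧ Ergodic (Prod.map A B) lam ∧ lam.map Prod.fst = μ ∧
      lam.map Prod.snd = μ' ∧ ∫ z, Φ z ∂kap ≤ ∫ z, Φ z ∂lam := by
  have hm := MeasurableSpace.invariants_le (Prod.map A B)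
  have hint : Integrable Φ kap :=
    (integrable_const C).mono' hΦ.aestronglyMeasurable (Eventually.of_forall fun z => by rw [Real.norm_eq_abs]; exact hC z)
  have g1 := MP_e4ee3e_an.condKernel_ergodic hk
  have g2 := comp_marg μ eA kap hk measurable_fst (fun v => rfl) h1
  have g3 := comp_marg μ' eB kap hk measurable_snd (fun v => rfl) h2
  have g4 := condExp_ae_eq_integral_condExpKernel (μ := kap) hm hint
  obtain ⟨w, hw, hle⟩ := exists_notMem_null_integral_le
    (f := condExp (MeasurableSpace.invariants (Prod.map A B)) kap Φ) integrable_condExp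
    (ae_iff.1 (((g1.and g2).and g3).and g4))
  rw [Set.mem_ofPred_eq, not_not] at hw
  obtain ⟨⟨⟨w1, w2⟩, w3⟩, w4⟩ := hw
  rw [integral_condExp hm, w4] at hle
  exact ⟨_, inferInstance, w1, w2, w3, hle⟩

/-- **lifts of joinings of factors to ergodic joinings** -/
theorem exists_lift_erg {X Y Z W : Type} [MeasurableSpace X] [StandardBorelSpace X] [MeasurableSpace Y]
    [StandardBorelSpace Y] [MeasurableSpace Z] [StandardBorelSpace Z] [MeasurableSpace W] [StandardBorelSpace W]
    (μ : Measure X) [IsProbabilityMeasure μ] (μ' : Measure Y) [IsProbabilityMeasure μ']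
    (T : X → X) (hT : Ergodic T μ) (T' : Y → Y) (hT' : Ergodic T' μ')
    (R : Z ≃ᵐ Z) (S : W ≃ᵐ W) (π : X → Z) (hπ : Measurable π) (π' : Y → W) (hπ' : Measurable π')
    (h : ∀ᵐ x ∂μ, π (T x) = R (π x)) (h' : ∀ᵐ y ∂μ', π' (T' y) = S (π' y))
    (lam : Measure (Z × W)) [IsProbabilityMeasure lam] (hl : MeasurePreserving (Prod.map R S) lam lam)
    (h1 : lam.map Prod.fst = μ.map π) (h2 : lam.map Prod.snd = μ'.map π')
    (Φ : Z × W → ℝ) (hΦ : Measurable Φ) (C : ℝ) (hC : ∀ z, |Φ z| ≤ C) :
    ∃ kap : Measure (X × Y), IsProbabilityMeasure kap ∧ Ergodic (Prod.map T T') kap ∧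
      kap.map Prod.fst = μ ∧ kap.map Prod.snd = μ' ∧ ∫ z, Φ z ∂lam ≤ ∫ v, Φ (π v.1, π' v.2) ∂kap := by
  obtain ⟨k0, p0, i0, f0, s0, m0⟩ := exists_lift μ μ' T hT.toMeasurePreserving T' hT'.toMeasurePreserving R S π hπ π' hπ'
    h h' lam hl h1 h2
  have hΦ' : Measurable fun v : X × Y => Φ (π v.1, π' v.2) :=
    hΦ.comp ((hπ.comp measurable_fst).prodMk (hπ'.comp measurable_snd))
  obtain ⟨kap, p1, e1, f1, s1, l1⟩ := exists_erg_comp μ μ' hT hT' k0 i0 f0 s0 (fun v => Φ (π v.1, π' v.2)) hΦ' C
    (fun v => hC _)
  refine ⟨kap, p1, e1, f1, s1, ?_⟩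
  have e : ∫ z, Φ z ∂lam = ∫ v, Φ (π v.1, π' v.2) ∂k0 := by
    rw [← m0, integral_map (hπ.prodMap hπ').aemeasurable hΦ.aestronglyMeasurable]
    rfl
  rw [e]; exact l1

end Pool.Agent.Lib.MP_9fe581_an.AV
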