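import Pool.Agent.Lib.MP_9fe581_an.AV.Defs

/-!
# AV, LiftB: the relatively independent lift of a coupling
-/

set_option autoImplicit false
set_option linter.unusedSectionVars false
set_option warn.classDefReducibility false

open Finset MeasureTheory Filter Topology ProbabilityTheory
open scoped ComplexConjugate ENNReal

namespace Pool.Agent.Lib.MP_9fe581_an.AV

open AP
open AH (BM)

private theorem lj_bind {Z Z' Y Y' : Type} [MeasurableSpace Z] [MeasurableSpace Z'] [MeasurableSpace Y]
    [MeasurableSpace Y'] (κ : Kernel Z Y) [IsMarkovKernel κ] (κ' : Kernel Z' Y') [IsMarkovKernel κ']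
    (lam : Measure (Z × Z')) {s : Set (Y × Y')} (hs : MeasurableSet s) :
    (lam.bind (κ ∥ₖ κ')) s = ∫⁻ w, ((κ w.1).prod (κ' w.2)) s ∂lam := by
  rw [Measure.bind_apply hs (Kernel.aemeasurable _)]
  refine lintegral_congr fun w => ?_
  rw [Kernel.parallelComp_apply]

private theorem lj_map {Z Z' Y Y' V : Type} [MeasurableSpace Z] [MeasurableSpace Z'] [MeasurableSpace Y]
    [MeasurableSpace Y'] [MeasurableSpace V] (κ : Kernel Z Y) [IsMarkovKernel κ] (κ' : Kernel Z' Y') [IsMarkovKernel κ']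
    (lam : Measure (Z × Z')) {F : Y × Y' → V} (hF : Measurable F) {s : Set V} (hs : MeasurableSet s) :
    ((lam.bind (κ ∥ₖ κ')).map F) s = ∫⁻ w, (((κ w.1).prod (κ' w.2)).map F) s ∂lam := by
  rw [Measure.map_apply hF hs, lj_bind κ κ' lam (hF hs)]
  refine lintegral_congr fun w => ?_
  rw [Measure.map_apply hF hs]

/-- **the relatively independent lift**: `ρ = lam.bind ((z, w) ↦ (κ z).prod (κ' w))` (kernel `κ ∥ₖ κ'`, or
`(κ.comap fst) ×ₖ (κ'.comap snd)`). Marginals: `∫ κ z da(z) = m`. Invariance: `Prod.map S S'` maps `(κ z).prod (κ' w)` to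
`(κ (A z)).prod (κ' (B w))` for `lam`-almost all `(z, w)`, and `lam` is invariant. Projection: `(π, π')` maps
`(κ z).prod (κ' w)` to the Dirac measure of `(z, w)` for `lam`-almost all `(z, w)` -/
theorem lift_join {Z Z' Y Y' : Type} [MeasurableSpace Z] [StandardBorelSpace Z] [MeasurableSpace Z']
    [StandardBorelSpace Z'] [MeasurableSpace Y] [StandardBorelSpace Y] [MeasurableSpace Y'] [StandardBorelSpace Y']
    {A : Z → Z} (hA : Aut A) {B : Z' → Z'} (hB : Aut B)
    {m : Measure Y} [IsProbabilityMeasure m] {S : Y → Y} (hS : MeasurePreserving S m m)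
    {m' : Measure Y'} [IsProbabilityMeasure m'] {S' : Y' → Y'} (hS' : MeasurePreserving S' m' m')
    {π : Y → Z} {a : Measure Z} (hπ : MeasurePreserving π m a) {π' : Y' → Z'} {a' : Measure Z'}
    (hπ' : MeasurePreserving π' m' a')
    {κ : Kernel Z Y} [IsMarkovKernel κ] (h1 : a.bind κ = m) (h2 : ∀ᵐ z ∂a, ∀ᵐ y ∂(κ z), π y = z)
    (h3 : ∀ᵐ z ∂a, (κ z).map S = κ (A z))
    {κ' : Kernel Z' Y'} [IsMarkovKernel κ'] (h1' : a'.bind κ' = m') (h2' : ∀ᵐ z ∂a', ∀ᵐ y ∂(κ' z), π' y = z)
    (h3' : ∀ᵐ z ∂a', (κ' z).map S' = κ' (B z))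
    {lam : Measure (Z × Z')} (hl : IsProbabilityMeasure lam) (hli : MeasurePreserving (Prod.map A B) lam lam)
    (hl1 : lam.map Prod.fst = a) (hl2 : lam.map Prod.snd = a') :
    ∃ ρ : Measure (Y × Y'), IsProbabilityMeasure ρ ∧ MeasurePreserving (Prod.map S S') ρ ρ ∧ ρ.map Prod.fst = m ∧
      ρ.map Prod.snd = m' ∧ ρ.map (Prod.map π π') = lam := by
  have e2 : ∀ᵐ w ∂lam, ∀ᵐ y ∂(κ w.1), π y = w.1 := by
    rw [← hl1] at h2
    exact ae_of_ae_map measurable_fst.aemeasurable h2
  have e2' : ∀ᵐ w ∂lam, ∀ᵐ y ∂(κ' w.2), π' y = w.2 := by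
    rw [← hl2] at h2'
    exact ae_of_ae_map measurable_snd.aemeasurable h2'
  have e3 : ∀ᵐ w ∂lam, (κ w.1).map S = κ (A w.1) := by
    rw [← hl1] at h3
    exact ae_of_ae_map measurable_fst.aemeasurable h3
  have e3' : ∀ᵐ w ∂lam, (κ' w.2).map S' = κ' (B w.2) := by
    rw [← hl2] at h3'
    exact ae_of_ae_map measurable_snd.aemeasurable h3'
  refine ⟨lam.bind (κ ∥ₖ κ'), ?_, ⟨hS.measurable.prodMap hS'.measurable, ?_⟩, ?_, ?_, ?_⟩
  · refine ⟨?_⟩
    rw [lj_bind κ κ' lam MeasurableSet.univ]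
    simp
  · refine Measure.ext fun s hs => ?_
    rw [lj_map κ κ' lam (hS.measurable.prodMap hS'.measurable) hs, lj_bind κ κ' lam hs]
    have hm : Measurable fun w : Z × Z' => ((κ w.1).prod (κ' w.2)) s := by
      have : (fun w : Z × Z' => ((κ w.1).prod (κ' w.2)) s) = fun w => (κ ∥ₖ κ') w s := by
        funext w; rw [Kernel.parallelComp_apply]
      rw [this]
      exact Kernel.measurable_coe _ hs
    rw [← hli.lintegral_comp hm]
    refine lintegral_congr_ae ?_
    filter_upwards [e3, e3'] with w hw hw'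
    rw [← Measure.map_prod_map _ _ hS.measurable hS'.measurable, hw, hw']
    rfl
  · refine Measure.ext fun s hs => ?_
    rw [lj_map κ κ' lam measurable_fst hs, ← h1, ← hl1, Measure.bind_apply hs (Kernel.aemeasurable _),
      lintegral_map (Kernel.measurable_coe _ hs) measurable_fst]
    refine lintegral_congr fun w => ?_
    rw [Measure.map_fst_prod]
    simp
  · refine Measure.ext fun s hs => ?_
    rw [lj_map κ κ' lam measurable_snd hs, ← h1', ← hl2, Measure.bind_apply hs (Kernel.aemeasurable _),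
      lintegral_map (Kernel.measurable_coe _ hs) measurable_snd]
    refine lintegral_congr fun w => ?_
    rw [Measure.map_snd_prod]
    simp
  · refine Measure.ext fun s hs => ?_
    rw [lj_map κ κ' lam (hπ.measurable.prodMap hπ'.measurable) hs]
    have : ∀ᵐ w ∂lam, (((κ w.1).prod (κ' w.2)).map (Prod.map π π')) s = s.indicator (fun _ => 1) w := by
      filter_upwards [e2, e2'] with w hw hw'
      rw [← Measure.map_prod_map _ _ hπ.measurable hπ'.measurable]
      have t1 : (κ w.1).map π = Measure.dirac w.1 := by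
        rw [Measure.map_congr (g := fun _ => w.1) hw, Measure.map_const, measure_univ, one_smul]
      have t2 : (κ' w.2).map π' = Measure.dirac w.2 := by
        rw [Measure.map_congr (g := fun _ => w.2) hw', Measure.map_const, measure_univ, one_smul]
      rw [t1, t2, Measure.dirac_prod_dirac, Measure.dirac_apply' _ hs]
      rfl
    rw [lintegral_congr_ae this, lintegral_indicator hs]
    simp

end Pool.Agent.Lib.MP_9fe581_an.AV
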