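import Pool.Agent.Lib.MP_9fe581_an.AV.Defs

/-!
# AV, LiftC: the ergodic components of a coupling of two ergodic systems are couplings of the same systems
-/

set_option autoImplicit false
set_option linter.unusedSectionVars false
set_option warn.classDefReducibility false

open Finset MeasureTheory Filter Topology ProbabilityTheory
open scoped ComplexConjugate ENNReal

namespace Pool.Agent.Lib.MP_9fe581_an.AV

open AP
open AH (BM)

/-- the image of the restriction to an invariant set is a multiple of `m` -/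
private theorem LC_restrict {Z Y : Type} [MeasurableSpace Z] [MeasurableSpace Y] {ρ : Measure Z}
    [IsProbabilityMeasure ρ] {T : Z → Z} (hT : MeasurePreserving T ρ ρ) {m : Measure Y} [IsProbabilityMeasure m] {S : Y → Y}
    (hS : Ergodic S m) {π : Z → Y} (hπ : MeasurePreserving π ρ m) (hπT : ∀ z, π (T z) = S (π z))
    {s : Set Z} (hs : MeasurableSet s) (hTs : T ⁻¹' s = s) {A : Set Y} (hA : MeasurableSet A) :
    ρ (s ∩ π ⁻¹' A) = ρ s * m A := by
  have hval : ∀ B : Set Y, MeasurableSet B → ((ρ.restrict s).map π) B = ρ (s ∩ π ⁻¹' B) := by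
    intro B hB
    rw [Measure.map_apply hπ.measurable hB, Measure.restrict_apply (hπ.measurable hB), Set.inter_comm]
  have hfin : IsFiniteMeasure ((ρ.restrict s).map π) := by infer_instance
  have hinv : MeasurePreserving S ((ρ.restrict s).map π) ((ρ.restrict s).map π) := by
    refine ⟨hS.measurable, ?_⟩
    ext B hB
    rw [Measure.map_apply hS.measurable hB, hval _ (hS.measurable hB), hval _ hB]
    have h4 : s ∩ π ⁻¹' (S ⁻¹' B) = T ⁻¹' (s ∩ π ⁻¹' B) := by
      rw [Set.preimage_inter, hTs]
      congr 1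
      ext z
      simp only [Set.mem_preimage, hπT]
    rw [h4, hT.measure_preimage (hs.inter (hπ.measurable hB)).nullMeasurableSet]
  have hac : (ρ.restrict s).map π ≪ m := by
    refine Measure.AbsolutelyContinuous.mk fun B hB h0 => ?_
    rw [hval B hB]
    refine measure_mono_null Set.inter_subset_right ?_
    rw [hπ.measure_preimage hB.nullMeasurableSet, h0]
  obtain ⟨c, hc⟩ := hS.eq_smul_of_absolutelyContinuous hinv hac
  have h1 := hval Set.univ MeasurableSet.univ
  rw [hc, Measure.smul_apply, measure_univ, smul_eq_mul, mul_one, Set.preimage_univ, Set.inter_univ] at h1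
  have h2 := hval A hA
  rw [hc, Measure.smul_apply, smul_eq_mul, h1] at h2
  exact h2.symm

private theorem LC_one {Z Y : Type} [MeasurableSpace Z] [StandardBorelSpace Z] [MeasurableSpace Y] {ρ : Measure Z}
    [IsProbabilityMeasure ρ] {T : Z → Z} (hT : MeasurePreserving T ρ ρ) {m : Measure Y} [IsProbabilityMeasure m] {S : Y → Y}
    (hS : Ergodic S m) {π : Z → Y} (hπ : MeasurePreserving π ρ m) (hπT : ∀ z, π (T z) = S (π z))
    {A : Set Y} (hA : MeasurableSet A) :
    ∀ᵐ ω ∂ρ, condExpKernel ρ (MeasurableSpace.invariants T) ω (π ⁻¹' A) = m A := by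
  have hm := MeasurableSpace.invariants_le T
  have hB : MeasurableSet (π ⁻¹' A) := hπ.measurable hA
  have h1 := condExpKernel_ae_eq_condExp (μ := ρ) hm hB
  have h2 : (fun _ : Z => m.real A) =ᵐ[ρ]
      condExp (MeasurableSpace.invariants T) ρ ((π ⁻¹' A).indicator fun _ => (1 : ℝ)) := by
    refine ae_eq_condExp_of_forall_setIntegral_eq hm ((integrable_const 1).indicator hB) ?_ ?_ ?_
    · intro s _ _
      exact (integrable_const _).integrableOn
    · intro s hs _
      rw [setIntegral_indicator hB]
      simp only [integral_const, MeasurableSet.univ, measureReal_restrict_apply, Set.univ_inter,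
        smul_eq_mul, mul_one]
      rw [measureReal_def, measureReal_def, measureReal_def, LC_restrict hT hS hπ hπT hs.1 hs.2 hA,
        ENNReal.toReal_mul]
    · exact stronglyMeasurable_const.aestronglyMeasurable
  filter_upwards [h1, h2] with ω hω1 hω2
  rw [← hω2, measureReal_def, measureReal_def] at hω1
  exact (ENNReal.toReal_eq_toReal_iff' (measure_ne_top _ _) (measure_ne_top _ _)).1 hω1

private theorem LC_marg {Z Y : Type} [MeasurableSpace Z] [StandardBorelSpace Z] [MeasurableSpace Y] [StandardBorelSpace Y]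
    {ρ : Measure Z} [IsProbabilityMeasure ρ] {T : Z → Z} (hT : MeasurePreserving T ρ ρ) {m : Measure Y}
    [IsProbabilityMeasure m] {S : Y → Y} (hS : Ergodic S m) {π : Z → Y} (hπ : MeasurePreserving π ρ m)
    (hπT : ∀ z, π (T z) = S (π z)) :
    ∀ᵐ ω ∂ρ, (condExpKernel ρ (MeasurableSpace.invariants T) ω).map π = m := by
  obtain ⟨F, hF, hpi, hgen⟩ := Pool.Agent.Lib.MP_e4ee3e_an.x02_gen Y
  have h1 := ae_all_iff.2 fun q => LC_one hT hS hπ hπT (hF q)
  filter_upwards [h1] with ω hω
  have : IsProbabilityMeasure ((condExpKernel ρ (MeasurableSpace.invariants T) ω).map π) :=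
    Measure.isProbabilityMeasure_map hπ.measurable.aemeasurable
  refine ext_of_generate_finite (Set.range F) hgen hpi ?_ ?_
  · rintro _ ⟨q, rfl⟩
    rw [Measure.map_apply hπ.measurable (hF q)]
    exact hω q
  · rw [measure_univ, measure_univ]

/-- **bounds for the ergodic joinings are bounds for all invariant joinings**. `κ = condExpKernel ρ (invariants (S × S'))`,
`condKernel_ergodic` (X03): almost all `κ ω` are ergodic. Marginals: for `E` invariant under `S × S'` the measure
`A ↦ ρ (A ×ˢ univ ∩ E)` is `S`-invariant and `≤ m`, so it is a multiple of `m` (`Ergodic.eq_smul_of_absolutelyContinuous` or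
similar), so the conditional expectation of `1_A ∘ fst` is the constant `m A`; countably many generators (`x02_gen`). Then
`∫ Φ dρ = ∫ (∫ Φ dκ ω) dρ(ω)` -/
theorem dec_join {Y Y' : Type} [MeasurableSpace Y] [StandardBorelSpace Y] [MeasurableSpace Y'] [StandardBorelSpace Y']
    {m : Measure Y} [IsProbabilityMeasure m] {S : Y → Y} (hS : Ergodic S m)
    {m' : Measure Y'} [IsProbabilityMeasure m'] {S' : Y' → Y'} (hS' : Ergodic S' m')
    {ρ : Measure (Y × Y')} (hp : IsProbabilityMeasure ρ) (hρ : MeasurePreserving (Prod.map S S') ρ ρ)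
    (h1 : ρ.map Prod.fst = m) (h2 : ρ.map Prod.snd = m') {Φ : Y × Y' → ℂ} (hΦ : Bd Φ) {ε : ℝ}
    (hj : ∀ σ : Measure (Y × Y'), IsProbabilityMeasure σ → Ergodic (Prod.map S S') σ → σ.map Prod.fst = m →
      σ.map Prod.snd = m' → ‖∫ w, Φ w ∂σ‖ ≤ ε) : ‖∫ w, Φ w ∂ρ‖ ≤ ε := by
  have hm := MeasurableSpace.invariants_le (Prod.map S S')
  have ha := Pool.Agent.Lib.MP_e4ee3e_an.condKernel_ergodic hρ
  have hb := LC_marg hρ hS (π := Prod.fst) ⟨measurable_fst, h1⟩ fun z => rfl
  have hc := LC_marg hρ hS' (π := Prod.snd) ⟨measurable_snd, h2⟩ fun z => rfl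
  obtain ⟨C, hC⟩ := hΦ.bdd
  have hint : Integrable Φ ρ := Integrable.of_bound hΦ.meas.aestronglyMeasurable C (Eventually.of_forall hC)
  have hd := condExp_ae_eq_integral_condExpKernel (μ := ρ) hm hint
  have he : ∫ w, Φ w ∂ρ = ∫ ω, (∫ w, Φ w ∂condExpKernel ρ (MeasurableSpace.invariants (Prod.map S S')) ω) ∂ρ := by
    rw [← integral_condExp hm]
    exact integral_congr_ae hd
  rw [he]
  refine (norm_integral_le_of_norm_le_const (C := ε) ?_).trans (le_of_eq ?_)
  · filter_upwards [ha, hb, hc] with ω hω1 hω2 hω3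
    exact hj _ inferInstance hω1 hω2 hω3
  · simp

end Pool.Agent.Lib.MP_9fe581_an.AV
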