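import Pool.Agent.Lib.MP_9fe581_an.AV.Defs
import Pool.Agent.Lib.MP_9fe581_an.AV.Lift

/-!
# AV, LiftM: a bound for the joinings of two systems is a bound for the couplings of their factors
-/

set_option autoImplicit false
set_option linter.unusedSectionVars false
set_option warn.classDefReducibility false

open Finset MeasureTheory Filter Topology ProbabilityTheory
open scoped ComplexConjugate ENNReal

namespace Pool.Agent.Lib.MP_9fe581_an.AV

open AP
open AH (BM)

/-- the modulus from the real parts of the rotated numbers -/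
theorem norm_le_rot {I : ℂ} {ε : ℝ} (h : ∀ c : ℂ, ‖c‖ = 1 → (c * I).re ≤ ε) : ‖I‖ ≤ ε := by
  by_cases h0 : I = 0
  · rw [h0, norm_zero]
    have := h 1 (by simp)
    rw [h0] at this
    simpa using this
  · have hn : ‖I‖ ≠ 0 := norm_ne_zero_iff.2 h0
    have h1 := h (conj I / ‖I‖) (by
      rw [norm_div, RCLike.norm_conj, Complex.norm_real, norm_norm, div_self hn])
    have e : conj I / (‖I‖ : ℂ) * I = ((‖I‖ : ℝ) : ℂ) := by
      rw [div_mul_eq_mul_div, mul_comm, Complex.mul_conj, Complex.normSq_eq_norm_sq]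
      have : (‖I‖ : ℂ) ≠ 0 := by exact_mod_cast hn
      field_simp
      push_cast
      ring
    rw [e, Complex.ofReal_re] at h1
    exact h1

/-- the equivalence of an automorphism -/
theorem Aut.exists_equiv {Z : Type} [MeasurableSpace Z] {R : Z → Z} (h : Aut R) : ∃ e : Z ≃ᵐ Z, (e : Z → Z) = R := by
  obtain ⟨h0, R', h1, h2, h3⟩ := h
  exact ⟨{ toFun := R, invFun := R', left_inv := h3, right_inv := h2, measurable_toFun := h0, measurable_invFun := h1 },
    rfl⟩

theorem lift {Z Z' Y Y' : Type} [MeasurableSpace Z] [StandardBorelSpace Z] [MeasurableSpace Z']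
    [StandardBorelSpace Z'] [MeasurableSpace Y] [StandardBorelSpace Y] [MeasurableSpace Y'] [StandardBorelSpace Y']
    {A : Z → Z} (hA : Aut A) {B : Z' → Z'} (hB : Aut B)
    {m : Measure Y} [IsProbabilityMeasure m] {S : Y → Y} (hS : Ergodic S m)
    {m' : Measure Y'} [IsProbabilityMeasure m'] {S' : Y' → Y'} (hS' : Ergodic S' m')
    {π : Y → Z} {a : Measure Z} (hπ : MeasurePreserving π m a) (h : ∀ᵐ y ∂m, π (S y) = A (π y))
    {π' : Y' → Z'} {a' : Measure Z'} (hπ' : MeasurePreserving π' m' a') (h' : ∀ᵐ y ∂m', π' (S' y) = B (π' y))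
    {lam : Measure (Z × Z')} (hl : IsProbabilityMeasure lam) (hli : MeasurePreserving (Prod.map A B) lam lam)
    (hl1 : lam.map Prod.fst = a) (hl2 : lam.map Prod.snd = a') {F : Z → ℂ} {F' : Z' → ℂ} (hF : Bd F) (hF' : Bd F')
    {ε : ℝ} (hj : ∀ ρ : Measure (Y × Y'), IsProbabilityMeasure ρ → Ergodic (Prod.map S S') ρ → ρ.map Prod.fst = m →
      ρ.map Prod.snd = m' → ‖∫ w, F (π w.1) * conj (F' (π' w.2)) ∂ρ‖ ≤ ε) :
    ‖∫ w, F w.1 * conj (F' w.2) ∂lam‖ ≤ ε := by
  obtain ⟨eA, heA⟩ := hA.exists_equiv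
  obtain ⟨eB, heB⟩ := hB.exists_equiv
  obtain ⟨C, hC⟩ := hF.bdd
  obtain ⟨C', hC'⟩ := hF'.bdd
  have hΦm : Measurable fun w : Z × Z' => F w.1 * conj (F' w.2) :=
    (hF.meas.comp measurable_fst).mul (Complex.continuous_conj.measurable.comp (hF'.meas.comp measurable_snd))
  have hΦb : ∀ w : Z × Z', ‖F w.1 * conj (F' w.2)‖ ≤ C * C' := fun w => by
    rw [norm_mul, RCLike.norm_conj]
    exact mul_le_mul (hC _) (hC' _) (norm_nonneg _) ((norm_nonneg _).trans (hC w.1))
  refine norm_le_rot fun c hc => ?_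
  obtain ⟨ρ, r0, r1, r2, r3, r4⟩ := exists_lift_erg m m' S hS S' hS' eA eB π hπ.measurable π' hπ'.measurable
    (by rw [heA]; exact h) (by rw [heB]; exact h') lam (by rw [heA, heB]; exact hli) (by rw [hl1, hπ.map_eq])
    (by rw [hl2, hπ'.map_eq]) (fun w => (c * (F w.1 * conj (F' w.2))).re)
    (Complex.measurable_re.comp (measurable_const.mul hΦm)) (C * C') (fun w => by
      refine (Complex.abs_re_le_norm _).trans ?_
      rw [norm_mul, hc, one_mul]
      exact hΦb w)
  have hint : Integrable (fun w : Z × Z' => F w.1 * conj (F' w.2)) lam :=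
    (integrable_const (C * C')).mono' hΦm.aestronglyMeasurable (Eventually.of_forall hΦb)
  have hint' : Integrable (fun w : Y × Y' => F (π w.1) * conj (F' (π' w.2))) ρ :=
    (integrable_const (C * C')).mono'
      (hΦm.comp (hπ.measurable.prodMap hπ'.measurable)).aestronglyMeasurable
      (Eventually.of_forall fun w => hΦb (Prod.map π π' w))
  have e1 : (c * ∫ w, F w.1 * conj (F' w.2) ∂lam).re = ∫ w, (c * (F w.1 * conj (F' w.2))).re ∂lam := by
    rw [← integral_const_mul]
    exact (Complex.reCLM.integral_comp_comm (hint.const_mul c)).symm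
  have e2 : (c * ∫ w, F (π w.1) * conj (F' (π' w.2)) ∂ρ).re =
      ∫ w, (c * (F (π w.1) * conj (F' (π' w.2)))).re ∂ρ := by
    rw [← integral_const_mul]
    exact (Complex.reCLM.integral_comp_comm (hint'.const_mul c)).symm
  rw [e1]
  refine r4.trans ?_
  rw [← e2]
  refine (Complex.re_le_norm _).trans ?_
  rw [norm_mul, hc, one_mul]
  exact hj ρ r0 r1 r2 r3

end Pool.Agent.Lib.MP_9fe581_an.AV
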