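import Pool.Agent.Lib.MP_9fe581_an.AV.LiftC
import Pool.Agent.Lib.MP_9fe581_an.AU.Glue2
import Pool.Agent.Lib.MP_9fe581_an.AU.Model

/-!
# AV, LiftN: a bound for the joinings of two systems is a bound for the couplings of their factors, no invertibility

`Z`, `Z'` compact metrizable, `A`, `B` continuous; the systems above are invertible. Compact models `Ψ : Y → YY` (AU/Model);
the couplings `(π y, Ψ y)` of `(Z, a, A)` and the model are glued to the given coupling (AU/Glue2); the marginal on the models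
is pulled back to `Y × Y'`.
-/

set_option autoImplicit false
set_option linter.unusedSectionVars false
set_option warn.classDefReducibility false

open Finset MeasureTheory Filter Topology ProbabilityTheory
open scoped ComplexConjugate ENNReal

namespace Pool.Agent.Lib.MP_9fe581_an.AV

open AP
open AH (BM)
open AU (YY sh)

/-- the coupling of a factor and the model -/
private theorem ln_J {Z Y : Type} [MeasurableSpace Z] [MeasurableSpace Y] {m : Measure Y} [IsProbabilityMeasure m]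
    {S : Y → Y} (hS : MeasurePreserving S m m) {π : Y → Z} (hπ : Measurable π) {A : Z → Z} (hA : Measurable A)
    (h : ∀ᵐ y ∂m, π (S y) = A (π y)) {Ψ : Y → YY} (hΨ : Measurable Ψ) (hΨS : ∀ y, Ψ (S y) = sh (Ψ y)) :
    IsProbabilityMeasure (m.map fun y => (π y, Ψ y)) ∧
      MeasurePreserving (Prod.map A sh) (m.map fun y => (π y, Ψ y)) (m.map fun y => (π y, Ψ y)) := by
  have hm : Measurable fun y => (π y, Ψ y) := hπ.prodMk hΨ
  have hs : Measurable (Prod.map A sh) := hA.prodMap AU.sh_cont.measurable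
  refine ⟨Measure.isProbabilityMeasure_map hm.aemeasurable, hs, ?_⟩
  rw [Measure.map_map hs hm]
  have e : Prod.map A sh ∘ (fun y => (π y, Ψ y)) =ᵐ[m] (fun y => (π y, Ψ y)) ∘ S := by
    filter_upwards [h] with y hy
    simp only [Function.comp, Prod.map, hy, hΨS]
  rw [Measure.map_congr e, ← Measure.map_map hm hS.measurable, hS.map_eq]

theorem lift_n {Z Z' Y Y' : Type} [TopologicalSpace Z] [CompactSpace Z] [TopologicalSpace.MetrizableSpace Z]
    [MeasurableSpace Z] [BorelSpace Z] [TopologicalSpace Z'] [CompactSpace Z'] [TopologicalSpace.MetrizableSpace Z']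
    [MeasurableSpace Z'] [BorelSpace Z'] [MeasurableSpace Y] [StandardBorelSpace Y] [MeasurableSpace Y']
    [StandardBorelSpace Y'] {A : Z → Z} (hA : Continuous A) {B : Z' → Z'} (hB : Continuous B)
    {m : Measure Y} [IsProbabilityMeasure m] {S : Y → Y} (hS : Ergodic S m)
    (hSi : ∃ R : Y → Y, Measurable R ∧ (∀ x, S (R x) = x) ∧ ∀ x, R (S x) = x)
    {m' : Measure Y'} [IsProbabilityMeasure m'] {S' : Y' → Y'} (hS' : Ergodic S' m')
    (hSi' : ∃ R : Y' → Y', Measurable R ∧ (∀ x, S' (R x) = x) ∧ ∀ x, R (S' x) = x)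
    {π : Y → Z} {a : Measure Z} (hπ : MeasurePreserving π m a) (h : ∀ᵐ y ∂m, π (S y) = A (π y))
    {π' : Y' → Z'} {a' : Measure Z'} (hπ' : MeasurePreserving π' m' a') (h' : ∀ᵐ y ∂m', π' (S' y) = B (π' y))
    {lam : Measure (Z × Z')} (hl : IsProbabilityMeasure lam) (hli : MeasurePreserving (Prod.map A B) lam lam)
    (hl1 : lam.map Prod.fst = a) (hl2 : lam.map Prod.snd = a') {F : Z → ℂ} {F' : Z' → ℂ} (hF : Bd F) (hF' : Bd F')
    {ε : ℝ} (hj : ∀ ρ : Measure (Y × Y'), IsProbabilityMeasure ρ → Ergodic (Prod.map S S') ρ → ρ.map Prod.fst = m →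
      ρ.map Prod.snd = m' → ‖∫ w, F (π w.1) * conj (F' (π' w.2)) ∂ρ‖ ≤ ε) :
    ‖∫ w, F w.1 * conj (F' w.2) ∂lam‖ ≤ ε := by
  have nY : Nonempty Y := nonempty_of_isProbabilityMeasure m
  have nY' : Nonempty Y' := nonempty_of_isProbabilityMeasure m'
  obtain ⟨Ψ, hΨ, hΨS⟩ := AU.model hS.measurable hSi
  obtain ⟨Ψ', hΨ', hΨS'⟩ := AU.model hS'.measurable hSi'
  obtain ⟨j1, i1⟩ := ln_J hS.toMeasurePreserving hπ.measurable hA.measurable h hΨ.measurable hΨS
  obtain ⟨j2, i2⟩ := ln_J hS'.toMeasurePreserving hπ'.measurable hB.measurable h' hΨ'.measurable hΨS'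
  have m1 : Measurable fun y => (π y, Ψ y) := hπ.measurable.prodMk hΨ.measurable
  have m2 : Measurable fun y => (π' y, Ψ' y) := hπ'.measurable.prodMk hΨ'.measurable
  obtain ⟨Lam, p0, inv, c0, c1, c2⟩ := AU.glue hA hB AU.sh_cont AU.sh_cont lam hli
    (m.map fun y => (π y, Ψ y)) i1 (m'.map fun y => (π' y, Ψ' y)) i2
    (by rw [Measure.map_map measurable_fst m1, hl1, ← hπ.map_eq]; rfl)
    (by rw [Measure.map_map measurable_fst m2, hl2, ← hπ'.map_eq]; rfl)
  -- the inverses of the models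
  set Θ : YY → Y := hΨ.invFun with hΘ
  set Θ' : YY → Y' := hΨ'.invFun with hΘ'
  have hl : ∀ y, Θ (Ψ y) = y := hΨ.leftInverse_invFun
  have hl' : ∀ y, Θ' (Ψ' y) = y := hΨ'.leftInverse_invFun
  have hΘm : Measurable Θ := hΨ.measurable_invFun
  have hΘm' : Measurable Θ' := hΨ'.measurable_invFun
  have g1 : Measurable fun w : (Z × Z') × (YY × YY) => (w.1.1, w.2.1) := by fun_prop
  have g2 : Measurable fun w : (Z × Z') × (YY × YY) => (w.1.2, w.2.2) := by fun_prop
  -- almost every point is of the form `(π y, Ψ y)`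
  have f1 : ∀ᵐ w ∂Lam, w.1.1 = π (Θ w.2.1) ∧ Θ (sh w.2.1) = S (Θ w.2.1) := by
    have e : ∀ᵐ v ∂(m.map fun y => (π y, Ψ y)), v.1 = π (Θ v.2) ∧ Θ (sh v.2) = S (Θ v.2) := by
      -- measurability of the set is not needed: use the image of a full set
      rw [ae_iff]
      have hsb : StandardBorelSpace Z := by
        let _ : MetricSpace Z := TopologicalSpace.metrizableSpaceMetric Z
        infer_instance
      have hms : MeasurableSet {v : Z × YY | v.1 = π (Θ v.2) ∧ Θ (sh v.2) = S (Θ v.2)} :=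
        (measurableSet_eq_fun measurable_fst (hπ.measurable.comp (hΘm.comp measurable_snd))).inter
          (measurableSet_eq_fun (hΘm.comp (AU.sh_cont.measurable.comp measurable_snd))
            (hS.measurable.comp (hΘm.comp measurable_snd)))
      have e2 : {v : Z × YY | ¬ (v.1 = π (Θ v.2) ∧ Θ (sh v.2) = S (Θ v.2))} =
          {v : Z × YY | v.1 = π (Θ v.2) ∧ Θ (sh v.2) = S (Θ v.2)}ᶜ := rfl
      rw [e2, Measure.map_apply m1 hms.compl]
      have e3 : (fun y => (π y, Ψ y)) ⁻¹' {v : Z × YY | v.1 = π (Θ v.2) ∧ Θ (sh v.2) = S (Θ v.2)}ᶜ = ∅ := by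
        refine Set.eq_empty_of_forall_notMem fun y hy => hy ?_
        refine ⟨?_, ?_⟩
        · show π y = π (Θ (Ψ y))
          rw [hl]
        · show Θ (sh (Ψ y)) = S (Θ (Ψ y))
          rw [← hΨS, hl, hl]
      rw [e3, measure_empty]
    rw [← c1] at e
    exact ae_of_ae_map g1.aemeasurable e
  have f2 : ∀ᵐ w ∂Lam, w.1.2 = π' (Θ' w.2.2) ∧ Θ' (sh w.2.2) = S' (Θ' w.2.2) := by
    have e : ∀ᵐ v ∂(m'.map fun y => (π' y, Ψ' y)), v.1 = π' (Θ' v.2) ∧ Θ' (sh v.2) = S' (Θ' v.2) := by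
      rw [ae_iff]
      have hsb : StandardBorelSpace Z' := by
        let _ : MetricSpace Z' := TopologicalSpace.metrizableSpaceMetric Z'
        infer_instance
      have hms : MeasurableSet {v : Z' × YY | v.1 = π' (Θ' v.2) ∧ Θ' (sh v.2) = S' (Θ' v.2)} :=
        (measurableSet_eq_fun measurable_fst (hπ'.measurable.comp (hΘm'.comp measurable_snd))).inter
          (measurableSet_eq_fun (hΘm'.comp (AU.sh_cont.measurable.comp measurable_snd))
            (hS'.measurable.comp (hΘm'.comp measurable_snd)))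
      have e2 : {v : Z' × YY | ¬ (v.1 = π' (Θ' v.2) ∧ Θ' (sh v.2) = S' (Θ' v.2))} =
          {v : Z' × YY | v.1 = π' (Θ' v.2) ∧ Θ' (sh v.2) = S' (Θ' v.2)}ᶜ := rfl
      rw [e2, Measure.map_apply m2 hms.compl]
      have e3 : (fun y => (π' y, Ψ' y)) ⁻¹' {v : Z' × YY | v.1 = π' (Θ' v.2) ∧ Θ' (sh v.2) = S' (Θ' v.2)}ᶜ = ∅ := by
        refine Set.eq_empty_of_forall_notMem fun y hy => hy ?_
        refine ⟨?_, ?_⟩
        · show π' y = π' (Θ' (Ψ' y))
          rw [hl']
        · show Θ' (sh (Ψ' y)) = S' (Θ' (Ψ' y))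
          rw [← hΨS', hl', hl']
      rw [e3, measure_empty]
    rw [← c2] at e
    exact ae_of_ae_map g2.aemeasurable e
  -- the joining of the systems above
  have g : Measurable fun w : (Z × Z') × (YY × YY) => (Θ w.2.1, Θ' w.2.2) := by fun_prop
  set ρ : Measure (Y × Y') := Lam.map fun w => (Θ w.2.1, Θ' w.2.2) with hρ
  have hρp : IsProbabilityMeasure ρ := Measure.isProbabilityMeasure_map g.aemeasurable
  have hρi : MeasurePreserving (Prod.map S S') ρ ρ := by
    refine ⟨hS.measurable.prodMap hS'.measurable, ?_⟩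
    rw [hρ, Measure.map_map (hS.measurable.prodMap hS'.measurable) g]
    have e : Prod.map S S' ∘ (fun w : (Z × Z') × (YY × YY) => (Θ w.2.1, Θ' w.2.2)) =ᵐ[Lam]
        (fun w : (Z × Z') × (YY × YY) => (Θ w.2.1, Θ' w.2.2)) ∘ Prod.map (Prod.map A B) (Prod.map sh sh) := by
      filter_upwards [f1, f2] with w w1 w2
      simp only [Function.comp, Prod.map, w1.2, w2.2]
    rw [Measure.map_congr e, ← Measure.map_map g inv.measurable, inv.map_eq]
  have hρ1 : ρ.map Prod.fst = m := by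
    rw [hρ, Measure.map_map measurable_fst g]
    have e : Prod.fst ∘ (fun w : (Z × Z') × (YY × YY) => (Θ w.2.1, Θ' w.2.2)) =
        (fun v : Z × YY => Θ v.2) ∘ fun w : (Z × Z') × (YY × YY) => (w.1.1, w.2.1) := rfl
    have hs1 : Measurable fun v : Z × YY => Θ v.2 := hΘm.comp measurable_snd
    rw [e, ← Measure.map_map hs1 g1, c1, Measure.map_map hs1 m1]
    have e2 : (fun v : Z × YY => Θ v.2) ∘ (fun y => (π y, Ψ y)) = id := funext fun y => hl y
    rw [e2, Measure.map_id]
  have hρ2 : ρ.map Prod.snd = m' := by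
    rw [hρ, Measure.map_map measurable_snd g]
    have e : Prod.snd ∘ (fun w : (Z × Z') × (YY × YY) => (Θ w.2.1, Θ' w.2.2)) =
        (fun v : Z' × YY => Θ' v.2) ∘ fun w : (Z × Z') × (YY × YY) => (w.1.2, w.2.2) := rfl
    have hs1 : Measurable fun v : Z' × YY => Θ' v.2 := hΘm'.comp measurable_snd
    rw [e, ← Measure.map_map hs1 g2, c2, Measure.map_map hs1 m2]
    have e2 : (fun v : Z' × YY => Θ' v.2) ∘ (fun y => (π' y, Ψ' y)) = id := funext fun y => hl' y
    rw [e2, Measure.map_id]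
  have hΦ : Bd fun w : Z × Z' => F w.1 * conj (F' w.2) := by
    obtain ⟨C, hC⟩ := hF.bdd
    obtain ⟨C', hC'⟩ := hF'.bdd
    refine ⟨(hF.meas.comp measurable_fst).mul (Complex.continuous_conj.measurable.comp (hF'.meas.comp measurable_snd)),
      C * C', fun w => ?_⟩
    rw [norm_mul, RCLike.norm_conj]
    exact mul_le_mul (hC _) (hC' _) (norm_nonneg _) ((norm_nonneg _).trans (hC w.1))
  have hm : Measurable (Prod.map π π') := hπ.measurable.prodMap hπ'.measurable
  have hΨb : Bd fun w : Y × Y' => F (π w.1) * conj (F' (π' w.2)) := by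
    obtain ⟨C, hC⟩ := hΦ.bdd
    exact ⟨hΦ.meas.comp hm, C, fun w => hC (Prod.map π π' w)⟩
  have e : ∫ w, F w.1 * conj (F' w.2) ∂lam = ∫ w, F (π w.1) * conj (F' (π' w.2)) ∂ρ := by
    rw [hρ, integral_map g.aemeasurable hΨb.meas.aestronglyMeasurable, ← c0,
      integral_map measurable_fst.aemeasurable hΦ.meas.aestronglyMeasurable]
    refine integral_congr_ae ?_
    filter_upwards [f1, f2] with w w1 w2
    simp only [w1.1, w2.1]
  rw [e]
  exact dec_join hS hS' hρp hρi hρ1 hρ2 hΨb hj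

end Pool.Agent.Lib.MP_9fe581_an.AV
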