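import Pool.Agent.Lib.MP_9fe581_an.AV.Defs

/-!
# AV, Unif: from quasi-generic points to all points
-/

set_option autoImplicit false
set_option linter.unusedSectionVars false
set_option warn.classDefReducibility false

open Finset MeasureTheory Filter Topology ProbabilityTheory
open scoped ComplexConjugate ENNReal

namespace Pool.Agent.Lib.MP_9fe581_an.AV

open AP
open AH (BM)

/-- **from quasi-generic points to all points**: if not, there are `N i ≥ i`, `N i > 0` and `z i` with the opposite inequality; the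
empirical measures have a convergent subsequence (`ProbabilityMeasure Z` is compact and metrizable), the limit is invariant -/
theorem unif {Z : Type} [TopologicalSpace Z] [CompactSpace Z] [TopologicalSpace.MetrizableSpace Z] [MeasurableSpace Z]
    [BorelSpace Z] {R : Z → Z} (hRc : Continuous R) {A : ℕ → Z → ℝ} {ε : ℝ}
    (h : ∀ ν : Measure Z, IsProbabilityMeasure ν → MeasurePreserving R ν ν → ∀ (z : ℕ → Z) (N : ℕ → ℕ),
      Tendsto N atTop atTop → QGen R ν z N → ∀ᶠ i in atTop, A (N i) (z i) ≤ ε * N i) :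
    ∃ N0 : ℕ, ∀ N ≥ N0, ∀ z, A N z ≤ ε * N := by
  let _ : MetricSpace Z := TopologicalSpace.metrizableSpaceMetric Z
  by_contra hcon
  push Not at hcon
  choose N hN z hz using fun i : ℕ => hcon (i + 1)
  have hN1 : ∀ i, 1 ≤ N i := fun i => le_trans (Nat.le_add_left 1 i) (hN i)
  have hNt : Tendsto N atTop atTop := tendsto_atTop_mono (fun i => (Nat.le_succ i).trans (hN i)) tendsto_id
  set μ : ℕ → ProbabilityMeasure Z := fun k => ⟨FT.emp R (z k) (N k - 1), FT.emp_prob R (z k) (N k - 1)⟩ with hμ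
  obtain ⟨ρ, φ, hφ, hρ⟩ := CompactSpace.tendsto_subseq μ
  have hNφ : Tendsto (fun k => N (φ k)) atTop atTop := hNt.comp hφ.tendsto_atTop
  set U : Ultrafilter ℕ := Ultrafilter.of atTop
  have hU : (U : Filter ℕ) ≤ atTop := Ultrafilter.of_le _
  obtain ⟨ν, hν, hνR, hνl⟩ := qg_lim R hRc (fun k => z (φ k)) (fun k => N (φ k) - 1) U
    (((tendsto_sub_atTop_nat 1).comp hNφ).mono_left hU)
  have hR := ProbabilityMeasure.tendsto_iff_forall_integral_tendsto.mp hρ
  have hq : QGen R ν (fun k => z (φ k)) (fun k => N (φ k)) := by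
    intro g
    have h1 : Tendsto (fun k => ∫ y, g y ∂(FT.emp R (z (φ k)) (N (φ k) - 1))) atTop (𝓝 (∫ y, g y ∂(ρ : Measure Z))) :=
      hR (BoundedContinuousFunction.mkOfCompact g)
    have h2 := tendsto_nhds_unique (h1.mono_left hU) (hνl g)
    rw [← h2]
    refine h1.congr fun k => ?_
    exact qg_avg R g (z (φ k)) (N (φ k)) (hN1 _)
  obtain ⟨i, hi⟩ := (h ν hν hνR (fun k => z (φ k)) (fun k => N (φ k)) hNφ hq).exists
  exact absurd (hz (φ i)) (not_lt.2 hi)

end Pool.Agent.Lib.MP_9fe581_an.AV
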