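import Pool.Agent.Lib.MP_9fe581_an.AV.Cell
import Pool.Agent.Lib.MP_9fe581_an.AV.Unif
import Pool.Agent.Lib.MP_9fe581_an.AV.Mr

/-!
# AV, Main: theorem E
-/

set_option autoImplicit false
set_option linter.unusedSectionVars false
set_option warn.classDefReducibility false

open Finset MeasureTheory Filter Topology ProbabilityTheory
open scoped ComplexConjugate ENNReal

namespace Pool.Agent.Lib.MP_9fe581_an.AV

open AP
open AH (BM)

variable {Z : Type} [TopologicalSpace Z] [CompactSpace Z] [TopologicalSpace.MetrizableSpace Z] [MeasurableSpace Z]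
    [BorelSpace Z] {G : Set ℂ} {R : Z → Z} {r : ℕ}

/-- mean zero functions, norm at most one -/
theorem main_one (hG : GOK G) (hRc : Continuous R) (hR : Aut R) (hr : 0 < r)
    (hall : ∀ b : Measure Z, IsProbabilityMeasure b → Ergodic R^[r] b → Fcl G R^[r] b) {f : C(Z, ℂ)} (hf : ∀ x, ‖f x‖ ≤ 1)
    (h0 : ∀ b : Measure Z, IsProbabilityMeasure b → MeasurePreserving R^[r] b b → ∫ x, f x ∂b = 0)
    {u : ℕ → ℂ} (hu : HD.BMult u) {ε : ℝ} (hε : 0 < ε) :
    ∃ N0 : ℕ, ∀ N ≥ N0, ∀ z, ‖∑ n ∈ Icc 1 N, u n * f (R^[n] z)‖ ≤ ε * N :=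
  unif hRc fun _ hp hν _ _ hN hq => by
    have := hp
    exact cell hG hRc hR hr hall hf h0 hν hN hq hu hε

/-- **mean zero functions** -/
theorem main_zero (hG : GOK G) (hRc : Continuous R) (hR : Aut R) (hr : 0 < r)
    (hall : ∀ b : Measure Z, IsProbabilityMeasure b → Ergodic R^[r] b → Fcl G R^[r] b) (f : C(Z, ℂ))
    (h0 : ∀ b : Measure Z, IsProbabilityMeasure b → MeasurePreserving R^[r] b b → ∫ x, f x ∂b = 0)
    {u : ℕ → ℂ} (hu : HD.BMult u) {ε : ℝ} (hε : 0 < ε) :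
    ∃ N0 : ℕ, ∀ N ≥ N0, ∀ z, ‖∑ n ∈ Icc 1 N, u n * f (R^[n] z)‖ ≤ ε * N := by
  set C : ℝ := ‖f‖ + 1 with hC
  have hC0 : 0 < C := by positivity
  set c : ℂ := ((1 / C : ℝ) : ℂ) with hc
  have hcn : ‖c‖ = 1 / C := by rw [hc, Complex.norm_real, Real.norm_of_nonneg (by positivity)]
  set k : C(Z, ℂ) := ⟨fun x => c * f x, by fun_prop⟩ with hk
  have hk1 : ∀ x, ‖k x‖ ≤ 1 := by
    intro x
    show ‖c * f x‖ ≤ 1
    rw [norm_mul, hcn, one_div, inv_mul_le_iff₀ hC0, mul_one]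
    exact (f.norm_coe_le_norm x).trans (by linarith)
  have hk0 : ∀ b : Measure Z, IsProbabilityMeasure b → MeasurePreserving R^[r] b b → ∫ x, k x ∂b = 0 := by
    intro b hb hbR
    show ∫ x, c * f x ∂b = 0
    rw [integral_const_mul, h0 b hb hbR, mul_zero]
  obtain ⟨N0, hN0⟩ := main_one hG hRc hR hr hall hk1 hk0 hu (ε := ε / C) (by positivity)
  refine ⟨N0, fun N hN z => ?_⟩
  have h1 := hN0 N hN z
  have e1 : ∑ n ∈ Icc 1 N, u n * k (R^[n] z) = c * ∑ n ∈ Icc 1 N, u n * f (R^[n] z) := by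
    rw [mul_sum]
    refine sum_congr rfl fun n _ => ?_
    show u n * (c * f (R^[n] z)) = c * (u n * f (R^[n] z))
    ring
  rw [e1, norm_mul, hcn] at h1
  have h2 : C * (1 / C * ‖∑ n ∈ Icc 1 N, u n * f (R^[n] z)‖) ≤ C * (ε / C * N) := mul_le_mul_of_nonneg_left h1 hC0.le
  have e2 : C * (1 / C * ‖∑ n ∈ Icc 1 N, u n * f (R^[n] z)‖) = ‖∑ n ∈ Icc 1 N, u n * f (R^[n] z)‖ := by field_simp
  have e3 : C * (ε / C * N) = ε * N := by field_simp
  rw [e2, e3] at h2
  exact h2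

/-- the Moebius function is multiplicative and bounded by one -/
theorem mu_bmult : HD.BMult fun n => ((ArithmeticFunction.moebius n : ℤ) : ℂ) := by
  refine ⟨fun n => ?_, fun m n h => ?_⟩
  · have h1 : |ArithmeticFunction.moebius n| ≤ 1 := ArithmeticFunction.abs_moebius_le_one
    rw [Complex.norm_intCast]
    exact_mod_cast h1
  · have := ArithmeticFunction.isMultiplicative_moebius.map_mul_of_coprime h
    simp only [this]
    push_cast
    ring

/-- **all functions, the Moebius function** -/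
theorem main_moeb (hG : GOK G) (hRc : Continuous R) (hR : Aut R) (hr : 0 < r)
    (hall : ∀ b : Measure Z, IsProbabilityMeasure b → Ergodic R^[r] b → Fcl G R^[r] b) (f : C(Z, ℂ)) {ε : ℝ} (hε : 0 < ε) :
    ∃ N0 : ℕ, ∀ N ≥ N0, ∀ z, ‖∑ n ∈ Icc 1 N, ((ArithmeticFunction.moebius n : ℤ) : ℂ) * f (R^[n] z)‖ ≤ ε * N := by
  have hN : Tendsto (fun i : ℕ × Z => i.1) (comap Prod.fst atTop) atTop := tendsto_comap
  have hpr : ∀ j : {b : Measure Z // IsProbabilityMeasure b ∧ MeasurePreserving R^[r] b b}, IsProbabilityMeasure j.1 :=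
    fun j => j.2.1
  have h := mr_moeb (Z := Z) hr hRc (ι := {b : Measure Z // IsProbabilityMeasure b ∧ MeasurePreserving R^[r] b b}) (I := ℕ × Z)
    (ν := fun j => j.1) (fun j => j.2.2) (l := comap Prod.fst atTop) (z := fun i => i.2) (N := fun i => i.1) hN
    (fun g hg h0 δ hδ => by
      obtain ⟨N0, hN0⟩ := main_zero hG hRc hR hr hall ⟨g, hg⟩ (fun b hb hbR => h0 ⟨b, hb, hbR⟩) mu_bmult hδ
      rw [eventually_comap]
      filter_upwards [eventually_ge_atTop N0] with N hN i hi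
      subst hi
      exact hN0 _ hN i.2)
    f.continuous ε hε
  rw [eventually_comap] at h
  obtain ⟨N0, hN0⟩ := eventually_atTop.1 h
  exact ⟨N0, fun N hN z => hN0 N hN (N, z) rfl⟩

end Pool.Agent.Lib.MP_9fe581_an.AV
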