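import Pool.Agent.Lib.MP_9fe581_an.AV.MainN
import Pool.Agent.Lib.MP_9fe581_an.AU.TopR

/-!
# AV, OrbN: the local form of theorems (D) and (E), on a closed forward invariant set, for continuous maps

Copy of helper69's Orb with `M` forward invariant only.
-/

set_option autoImplicit false
set_option linter.unusedSectionVars false

open Finset MeasureTheory Filter Topology ProbabilityTheory
open scoped ComplexConjugate ENNReal

namespace Pool.Agent.Lib.MP_9fe581_an.AV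

variable {Z : Type} [TopologicalSpace Z] [CompactSpace Z] [TopologicalSpace.MetrizableSpace Z] [MeasurableSpace Z]
    [BorelSpace Z] {R : Z → Z} {M : Set Z}

/-- the restriction to an invariant set -/
def rs_n (R : Z → Z) (M : Set Z) (hMR : ∀ z ∈ M, R z ∈ M) (z : M) : M := ⟨R z.1, hMR z.1 z.2⟩

theorem rs_iter_n (hMR : ∀ z ∈ M, R z ∈ M) (n : ℕ) (z : M) : ((rs_n R M hMR)^[n] z).1 = R^[n] z.1 := by
  induction n generalizing z with
  | zero => rfl
  | succ n ih =>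
    rw [Function.iterate_succ_apply, Function.iterate_succ_apply, ih]
    rfl

theorem rs_iter_n' (hMR : ∀ z ∈ M, R z ∈ M) (n : ℕ) : Subtype.val ∘ (rs_n R M hMR)^[n] = R^[n] ∘ Subtype.val := by
  funext z
  exact rs_iter_n hMR n z

theorem rs_cont_n (hRc : Continuous R) (hMR : ∀ z ∈ M, R z ∈ M) : Continuous (rs_n R M hMR) :=
  (hRc.comp continuous_subtype_val).subtype_mk _

/-- an ergodic measure of the restriction is an ergodic measure carried by `M` -/
theorem rs_erg_n (hM : IsClosed M) (hR : Measurable R) (hMR : ∀ z ∈ M, R z ∈ M) {n : ℕ} {b : Measure M}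
    [IsProbabilityMeasure b] (hb : Ergodic (rs_n R M hMR)^[n] b) :
    IsProbabilityMeasure (b.map Subtype.val) ∧ (b.map Subtype.val) Mᶜ = 0 ∧ Ergodic R^[n] (b.map Subtype.val) := by
  have hv : Measurable (Subtype.val : M → Z) := measurable_subtype_coe
  refine ⟨Measure.isProbabilityMeasure_map hv.aemeasurable, ?_, ?_, ?_⟩
  · rw [Measure.map_apply hv hM.measurableSet.compl]
    have : (Subtype.val : M → Z) ⁻¹' Mᶜ = ∅ := by
      ext z
      simp
    rw [this, measure_empty]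
  · refine ⟨hR.iterate n, ?_⟩
    rw [Measure.map_map (hR.iterate n) hv, ← rs_iter_n' hMR n, ← Measure.map_map hv hb.measurable, hb.map_eq]
  · refine ⟨fun s hs hinv => ?_⟩
    have h1 : (rs_n R M hMR)^[n] ⁻¹' (Subtype.val ⁻¹' s) = Subtype.val ⁻¹' s := by
      rw [← Set.preimage_comp, rs_iter_n' hMR n, Set.preimage_comp, hinv]
    have h2 := hb.toPreErgodic.aeconst_set (hv hs) h1
    rw [eventuallyConst_set] at h2 ⊢
    rcases h2 with h2 | h2
    · exact Or.inl ((ae_map_iff hv.aemeasurable hs).2 h2)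
    · exact Or.inr ((ae_map_iff hv.aemeasurable hs.compl).2 h2)

/-- a factor map onto a measure carried by `M` takes values in `M` -/
theorem rs_fac_n (hM : IsClosed M) (hMR : ∀ z ∈ M, R z ∈ M) {n : ℕ} {b : Measure M} [IsProbabilityMeasure b]
    {Y : Type} [MeasurableSpace Y] {m : Measure Y} {S : Y → Y} (hS : MeasurePreserving S m m) {π : Y → Z}
    (hπ : MeasurePreserving π m (b.map Subtype.val)) (h : ∀ᵐ y ∂m, π (S y) = R^[n] (π y)) :
    ∃ π' : Y → M, MeasurePreserving π' m b ∧ ∀ᵐ y ∂m, π' (S y) = (rs_n R M hMR)^[n] (π' y) := by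
  classical
  have hv : Measurable (Subtype.val : M → Z) := measurable_subtype_coe
  have hne : Nonempty M := by
    have h1 : b Set.univ ≠ 0 := by simp
    obtain ⟨z, -⟩ := nonempty_of_measure_ne_zero h1
    exact ⟨z⟩
  obtain ⟨z0⟩ := hne
  have hin : ∀ᵐ y ∂m, π y ∈ M := by
    have h1 : ∀ᵐ z ∂(b.map Subtype.val), z ∈ M := by
      refine (ae_map_iff (p := fun z => z ∈ M) hv.aemeasurable hM.measurableSet).2 ?_
      exact Eventually.of_forall fun z => z.2
    rw [← hπ.map_eq] at h1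
    exact (ae_map_iff (p := fun z => z ∈ M) hπ.measurable.aemeasurable hM.measurableSet).1 h1
  set π' : Y → M := fun y => if hy : π y ∈ M then ⟨π y, hy⟩ else z0 with hπ'
  have hval : ∀ y, π y ∈ M → (π' y).1 = π y := by
    intro y hy
    rw [hπ']
    simp only [dif_pos hy]
  have hm : Measurable π' := by
    have h1 : Measurable fun y => (π' y).1 := by
      have h2 : (fun y => (π' y).1) = fun y => if π y ∈ M then π y else z0.1 := by
        funext y
        by_cases hy : π y ∈ M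
        · rw [if_pos hy, hval y hy]
        · rw [if_neg hy, hπ']
          simp only [dif_neg hy]
      rw [h2]
      exact Measurable.ite (hπ.measurable hM.measurableSet) hπ.measurable measurable_const
    exact (MeasurableEmbedding.subtype_coe hM.measurableSet).measurable_comp_iff.1 h1
  refine ⟨π', ⟨hm, ?_⟩, ?_⟩
  · have h1 : (m.map π').map Subtype.val = b.map Subtype.val := by
      rw [Measure.map_map hv hm, ← hπ.map_eq]
      refine Measure.map_congr ?_
      filter_upwards [hin] with y hy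
      exact hval y hy
    have h2 := congrArg (Measure.comap (Subtype.val : M → Z)) h1
    rwa [(MeasurableEmbedding.subtype_coe hM.measurableSet).comap_map,
      (MeasurableEmbedding.subtype_coe hM.measurableSet).comap_map] at h2
  · have h1 : ∀ᵐ y ∂m, π (S y) ∈ M := hS.quasiMeasurePreserving.ae hin
    filter_upwards [h, hin, h1] with y e1 e2 e3
    refine Subtype.ext ?_
    rw [rs_iter_n hMR, hval y e2, hval _ e3, e1]

theorem rs_fcl_n (hM : IsClosed M) (hMR : ∀ z ∈ M, R z ∈ M) {G : Set ℂ} {n : ℕ} {b : Measure M}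
    [IsProbabilityMeasure b] (h : Fcl G R^[n] (b.map Subtype.val)) : Fcl G (rs_n R M hMR)^[n] b := by
  obtain ⟨Y, i1, i2, m, i3, S, π, hD, hE, hπ, hc⟩ := h
  obtain ⟨π', h1, h2⟩ := rs_fac_n hM hMR hD.erg.toMeasurePreserving hπ hc
  exact ⟨Y, i1, i2, m, i3, S, π', hD, hE, h1, h2⟩

/-- the restriction of a continuous function -/
noncomputable def rf_n (M : Set Z) (f : C(Z, ℂ)) : C(M, ℂ) := ⟨fun z => f z.1, f.continuous.comp continuous_subtype_val⟩

theorem rs_int_n (f : C(Z, ℂ)) (b : Measure M) : ∫ z, rf_n M f z ∂b = ∫ z, f z ∂(b.map Subtype.val) :=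
  (integral_map measurable_subtype_coe.aemeasurable f.continuous.measurable.aestronglyMeasurable).symm

theorem rs_sum_n (hMR : ∀ z ∈ M, R z ∈ M) (u : ℕ → ℂ) (f : C(Z, ℂ)) (N : ℕ) (z : M) :
    ∑ n ∈ Icc 1 N, u n * rf_n M f ((rs_n R M hMR)^[n] z) = ∑ n ∈ Icc 1 N, u n * f (R^[n] z.1) :=
  Finset.sum_congr rfl fun n _ => by
    show u n * f ((rs_n R M hMR)^[n] z).1 = _
    rw [rs_iter_n hMR]

variable {G : Set ℂ} {r : ℕ}

/-- **(E) on a closed invariant set, mean zero functions** -/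
theorem orb_zero_n (hG : GOK G) (hRc : Continuous R) (hr : 0 < r) (hM : IsClosed M)
    (hMR : ∀ z ∈ M, R z ∈ M)
    (hall : ∀ b : Measure Z, IsProbabilityMeasure b → b Mᶜ = 0 → Ergodic R^[r] b → Fcl G R^[r] b) (f : C(Z, ℂ))
    (h0 : ∀ b : Measure Z, IsProbabilityMeasure b → b Mᶜ = 0 → MeasurePreserving R^[r] b b → ∫ x, f x ∂b = 0)
    {u : ℕ → ℂ} (hu : HD.BMult u) {ε : ℝ} (hε : 0 < ε) :
    ∃ N0 : ℕ, ∀ N ≥ N0, ∀ z ∈ M, ‖∑ n ∈ Icc 1 N, u n * f (R^[n] z)‖ ≤ ε * N := by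
  have hcs : CompactSpace M := isCompact_iff_compactSpace.1 hM.isCompact
  obtain ⟨N0, hN0⟩ := main_zero_n (Z := M) (R := rs_n R M hMR) hG (rs_cont_n hRc hMR) hr
    (fun b hb hE => by
      obtain ⟨h1, h2, h3⟩ := rs_erg_n hM hRc.measurable hMR hE
      exact rs_fcl_n hM hMR (hall _ h1 h2 h3)) (rf_n M f)
    (fun b hb hb' => by
      rw [rs_int_n]
      refine h0 _ (Measure.isProbabilityMeasure_map measurable_subtype_coe.aemeasurable) ?_ ?_
      · rw [Measure.map_apply measurable_subtype_coe hM.measurableSet.compl]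
        have : (Subtype.val : M → Z) ⁻¹' Mᶜ = ∅ := by
          ext z
          simp
        rw [this, measure_empty]
      · refine ⟨hRc.measurable.iterate r, ?_⟩
        rw [Measure.map_map (hRc.measurable.iterate r) measurable_subtype_coe, ← rs_iter_n' hMR r,
          ← Measure.map_map measurable_subtype_coe hb'.measurable, hb'.map_eq]) hu hε
  refine ⟨N0, fun N hN z hz => ?_⟩
  have h1 := hN0 N hN ⟨z, hz⟩
  rwa [rs_sum_n hMR] at h1

/-- **(E) on a closed invariant set, the Moebius function** -/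
theorem orb_moeb_n (hG : GOK G) (hRc : Continuous R) (hr : 0 < r) (hM : IsClosed M)
    (hMR : ∀ z ∈ M, R z ∈ M)
    (hall : ∀ b : Measure Z, IsProbabilityMeasure b → b Mᶜ = 0 → Ergodic R^[r] b → Fcl G R^[r] b) (f : C(Z, ℂ))
    {ε : ℝ} (hε : 0 < ε) :
    ∃ N0 : ℕ, ∀ N ≥ N0, ∀ z ∈ M, ‖∑ n ∈ Icc 1 N, ((ArithmeticFunction.moebius n : ℤ) : ℂ) * f (R^[n] z)‖ ≤ ε * N := by
  have hcs : CompactSpace M := isCompact_iff_compactSpace.1 hM.isCompact
  obtain ⟨N0, hN0⟩ := main_moeb_n (Z := M) (R := rs_n R M hMR) hG (rs_cont_n hRc hMR) hr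
    (fun b hb hE => by
      obtain ⟨h1, h2, h3⟩ := rs_erg_n hM hRc.measurable hMR hE
      exact rs_fcl_n hM hMR (hall _ h1 h2 h3)) (rf_n M f) hε
  refine ⟨N0, fun N hN z hz => ?_⟩
  have h1 := hN0 N hN ⟨z, hz⟩
  rwa [rs_sum_n hMR] at h1

section D

variable {ι : Type} [Countable ι] {X : ι → Type} [∀ j, MeasurableSpace (X j)] [∀ j, StandardBorelSpace (X j)]

/-- **(D) on a closed invariant set, mean zero functions** -/
theorem dorb_zero_n (hRc : Continuous R) (μ : ∀ j, Measure (X j)) (T : ∀ j, X j → X j) (hm : ∀ j, IsProbabilityMeasure (μ j))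
    (hD : ∀ j, AQ.Dst (μ j) (T j)) (hK : ∀ j k, AQ.KR (μ j) (T j) (μ k) (T k)) (hM : IsClosed M)
    (hMR : ∀ z ∈ M, R z ∈ M)
    (hfac : ∀ a : Measure Z, IsProbabilityMeasure a → a Mᶜ = 0 → Ergodic R^[r] a → ∃ j, AU.IsFac (T j) (μ j) R^[r] a)
    (f : C(Z, ℂ)) (hf0 : ∀ a : Measure Z, IsProbabilityMeasure a → a Mᶜ = 0 → Ergodic R^[r] a → ∫ z, f z ∂a = 0)
    {u : ℕ → ℂ} (hu : HD.BMult u) {ε : ℝ} (hε : 0 < ε) :
    ∃ N0 : ℕ, ∀ N ≥ N0, ∀ z ∈ M, ‖∑ n ∈ Icc 1 N, u n * f (R^[n] z)‖ ≤ ε * N := by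
  have hcs : CompactSpace M := isCompact_iff_compactSpace.1 hM.isCompact
  obtain ⟨N0, hN0⟩ := AU.dst_bm_r (Z := M) (r := r) (R := rs_n R M hMR) (rs_cont_n hRc hMR) μ T hm hD hK
    (fun b hb hE => by
      obtain ⟨h1, h2, h3⟩ := rs_erg_n hM hRc.measurable hMR hE
      obtain ⟨j, π, hπ, hc⟩ := hfac _ h1 h2 h3
      exact ⟨j, rs_fac_n hM hMR (hD j).erg.toMeasurePreserving hπ hc⟩) (rf_n M f)
    (fun b hb hE => by
      obtain ⟨h1, h2, h3⟩ := rs_erg_n hM hRc.measurable hMR hE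
      rw [rs_int_n]
      exact hf0 _ h1 h2 h3) u hu ε hε
  refine ⟨N0, fun N hN z hz => ?_⟩
  have h1 := hN0 N hN ⟨z, hz⟩
  rwa [rs_sum_n hMR] at h1

/-- **(D) on a closed invariant set, the Moebius function** -/
theorem dorb_moeb_n (hr : 0 < r) (hRc : Continuous R) (μ : ∀ j, Measure (X j)) (T : ∀ j, X j → X j)
    (hm : ∀ j, IsProbabilityMeasure (μ j)) (hD : ∀ j, AQ.Dst (μ j) (T j))
    (hK : ∀ j k, AQ.KR (μ j) (T j) (μ k) (T k)) (hM : IsClosed M) (hMR : ∀ z ∈ M, R z ∈ M)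
    (hfac : ∀ a : Measure Z, IsProbabilityMeasure a → a Mᶜ = 0 → Ergodic R^[r] a → ∃ j, AU.IsFac (T j) (μ j) R^[r] a)
    (f : C(Z, ℂ)) {ε : ℝ} (hε : 0 < ε) :
    ∃ N0 : ℕ, ∀ N ≥ N0, ∀ z ∈ M, ‖∑ n ∈ Icc 1 N, ((ArithmeticFunction.moebius n : ℤ) : ℂ) * f (R^[n] z)‖ ≤ ε * N := by
  have hcs : CompactSpace M := isCompact_iff_compactSpace.1 hM.isCompact
  have h := AU.dst_moeb_r (Z := M) hr (R := rs_n R M hMR) (rs_cont_n hRc hMR) μ T hm hD hK
    (fun b hb hE => by
      obtain ⟨h1, h2, h3⟩ := rs_erg_n hM hRc.measurable hMR hE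
      obtain ⟨j, π, hπ, hc⟩ := hfac _ h1 h2 h3
      exact ⟨j, rs_fac_n hM hMR (hD j).erg.toMeasurePreserving hπ hc⟩) (rf_n M f)
  rw [Metric.tendstoUniformly_iff] at h
  obtain ⟨N0, hN0⟩ := eventually_atTop.1 (h ε hε)
  refine ⟨N0, fun N hN z hz => ?_⟩
  have h1 := hN0 N hN ⟨z, hz⟩
  rw [dist_comm, dist_zero_right, norm_mul, norm_div, norm_one, Complex.norm_natCast] at h1
  have e : ∑ k ∈ Icc 1 N, rf_n M f ((rs_n R M hMR)^[k] ⟨z, hz⟩) * ((ArithmeticFunction.moebius k : ℤ) : ℂ) =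
      ∑ n ∈ Icc 1 N, ((ArithmeticFunction.moebius n : ℤ) : ℂ) * f (R^[n] z) := by
    rw [← rs_sum_n hMR (fun n => ((ArithmeticFunction.moebius n : ℤ) : ℂ)) f N ⟨z, hz⟩]
    exact Finset.sum_congr rfl fun k _ => mul_comm _ _
  rw [e] at h1
  rcases Nat.eq_zero_or_pos N with h2 | h2
  · subst h2
    simp
  · have hNr : (0 : ℝ) < N := by exact_mod_cast h2
    have h3 : N * (1 / (N : ℝ) * ‖∑ n ∈ Icc 1 N, ((ArithmeticFunction.moebius n : ℤ) : ℂ) * f (R^[n] z)‖) ≤ N * ε :=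
      mul_le_mul_of_nonneg_left h1.le hNr.le
    have e2 : N * (1 / (N : ℝ) * ‖∑ n ∈ Icc 1 N, ((ArithmeticFunction.moebius n : ℤ) : ℂ) * f (R^[n] z)‖) =
        ‖∑ n ∈ Icc 1 N, ((ArithmeticFunction.moebius n : ℤ) : ℂ) * f (R^[n] z)‖ := by field_simp
    rw [e2] at h3
    linarith

end D

end Pool.Agent.Lib.MP_9fe581_an.AV
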