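import Pool.Agent.Lib.MP_9fe581_an.AV.LiftM
import Pool.Agent.Lib.MP_9fe581_an.AV.EF

/-!
# AV, Pt: all couplings of a fixed ergodic measure are small
-/

set_option autoImplicit false
set_option linter.unusedSectionVars false
set_option warn.classDefReducibility false

open Finset MeasureTheory Filter Topology ProbabilityTheory
open scoped ComplexConjugate ENNReal

namespace Pool.Agent.Lib.MP_9fe581_an.AV

open AP
open AH (BM)

/-- couplings of `R^p` and `R^q` with a given `R^p`-ergodic first marginal: bounds for the ergodic ones are bounds for all -/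
theorem face_bound {Z : Type} [TopologicalSpace Z] [CompactSpace Z] [TopologicalSpace.MetrizableSpace Z]
    [MeasurableSpace Z] [BorelSpace Z] {A B : Z → Z} (hA : Continuous A) (hB : Continuous B) {a : Measure Z}
    [IsProbabilityMeasure a] (ha : Ergodic A a) (f : C(Z, ℂ)) {ε : ℝ}
    (hj : ∀ lam : Measure (Z × Z), IsProbabilityMeasure lam → Ergodic (Prod.map A B) lam → lam.map Prod.fst = a →
      ‖∫ w, f w.1 * conj (f w.2) ∂lam‖ ≤ ε) (lam : Measure (Z × Z)) (hl : IsProbabilityMeasure lam)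
    (hli : MeasurePreserving (Prod.map A B) lam lam) (hl1 : lam.map Prod.fst = a) :
    ‖∫ w, f w.1 * conj (f w.2) ∂lam‖ ≤ ε := by
  have hS : Continuous (Prod.map A B) := hA.prodMap hB
  set K0 : Set (ProbabilityMeasure (Z × Z)) :=
    {μ | MeasurePreserving (Prod.map A B) (μ : Measure (Z × Z)) (μ : Measure (Z × Z))} ∩
      {μ | (μ : Measure (Z × Z)).map Prod.fst = a} with hK0
  have hcl : IsClosed K0 := (qe_inv_closed _ hS).inter (qe_marg_closed a Prod.fst continuous_fst)
  have key : ∀ μ ∈ K0, ∀ μ₁ : ProbabilityMeasure (Z × Z),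
      MeasurePreserving (Prod.map A B) (μ₁ : Measure (Z × Z)) (μ₁ : Measure (Z × Z)) →
      (μ₁ : Measure (Z × Z)) ≪ (μ : Measure (Z × Z)) → μ₁ ∈ K0 := by
    intro μ hμ μ₁ h1 hac
    obtain ⟨g1, g2⟩ := hμ
    refine ⟨h1, ?_⟩
    have m1 : MeasurePreserving A ((μ₁ : Measure (Z × Z)).map Prod.fst) ((μ₁ : Measure (Z × Z)).map Prod.fst) := by
      refine ⟨hA.measurable, ?_⟩
      rw [Measure.map_map hA.measurable measurable_fst]
      have e : A ∘ Prod.fst = Prod.fst ∘ Prod.map A B := rfl
      rw [e, ← Measure.map_map measurable_fst h1.measurable, h1.map_eq]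
    have m2 : (μ₁ : Measure (Z × Z)).map Prod.fst ≪ a := by
      have g2' : (μ : Measure (Z × Z)).map Prod.fst = a := g2
      rw [← g2']
      exact hac.map measurable_fst
    have m3 : IsProbabilityMeasure ((μ₁ : Measure (Z × Z)).map Prod.fst) :=
      Measure.isProbabilityMeasure_map measurable_fst.aemeasurable
    exact ha.eq_of_absolutelyContinuous m1 m2
  have hint : ∀ ν : Measure (Z × Z), IsProbabilityMeasure ν →
      Integrable (fun w : Z × Z => f w.1 * conj (f w.2)) ν := fun ν hν => by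
    refine (integrable_const (‖f‖ * ‖f‖)).mono' ?_ (Eventually.of_forall fun w => ?_)
    · exact ((f.continuous.comp continuous_fst).mul
        (Complex.continuous_conj.comp (f.continuous.comp continuous_snd))).measurable.aestronglyMeasurable
    · rw [norm_mul, RCLike.norm_conj]
      exact mul_le_mul (f.norm_coe_le_norm _) (f.norm_coe_le_norm _) (norm_nonneg _) (norm_nonneg _)
  refine norm_le_rot fun c hc => ?_
  have eR : ∀ ν : Measure (Z × Z), IsProbabilityMeasure ν →
      (c * ∫ w, f w.1 * conj (f w.2) ∂ν).re = ∫ w, (c * (f w.1 * conj (f w.2))).re ∂ν := fun ν hν => by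
    rw [← integral_const_mul]
    exact (Complex.reCLM.integral_comp_comm ((hint ν hν).const_mul c)).symm
  set Φ : C(Z × Z, ℝ) := ⟨fun w => (c * (f w.1 * conj (f w.2))).re, by
    exact Complex.continuous_re.comp (continuous_const.mul ((f.continuous.comp continuous_fst).mul
        (Complex.continuous_conj.comp (f.continuous.comp continuous_snd))))⟩ with hΦ
  obtain ⟨lam', l1, l2, l3⟩ := exists_ergodic_face (Prod.map A B) K0 hcl (fun μ hμ => hμ.1) (by
    intro μ hμ μ₁ μ₂ h1 h2 a' b' ha' hb' hab hs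
    have hac1 : (μ₁ : Measure (Z × Z)) ≪ (μ : Measure (Z × Z)) := by
      rw [hs]
      refine Measure.AbsolutelyContinuous.mk fun s hs' h0 => ?_
      rw [Measure.add_apply, Measure.smul_apply, smul_eq_mul, add_eq_zero, mul_eq_zero] at h0
      rcases h0.1 with h3 | h3
      · exact absurd h3 ha'.ne'
      · exact h3
    have hac2 : (μ₂ : Measure (Z × Z)) ≪ (μ : Measure (Z × Z)) := by
      rw [hs]
      refine Measure.AbsolutelyContinuous.mk fun s hs' h0 => ?_
      rw [Measure.add_apply, Measure.smul_apply, Measure.smul_apply, smul_eq_mul, smul_eq_mul, add_eq_zero, mul_eq_zero,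
        mul_eq_zero] at h0
      rcases h0.2 with h3 | h3
      · exact absurd h3 hb'.ne'
      · exact h3
    exact ⟨key μ hμ μ₁ h1 hac1, key μ hμ μ₂ h2 hac2⟩) ⟨lam, hl⟩ ⟨hli, hl1⟩ Φ
  rw [eR lam hl]
  have l3' : ∫ w, (c * (f w.1 * conj (f w.2))).re ∂lam ≤
      ∫ w, (c * (f w.1 * conj (f w.2))).re ∂(lam' : Measure (Z × Z)) := l3
  refine l3'.trans ?_
  rw [← eR lam' inferInstance]
  refine (Complex.re_le_norm _).trans ?_
  rw [norm_mul, hc, one_mul]
  exact hj lam' inferInstance l2 l1.2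

/-- **all couplings of one ergodic measure are small** -/
theorem pt {Z : Type} [TopologicalSpace Z] [CompactSpace Z] [TopologicalSpace.MetrizableSpace Z] [MeasurableSpace Z]
    [BorelSpace Z] {G : Set ℂ} (hG : GOK G) {R : Z → Z} (hRc : Continuous R) (hR : Aut R)
    (hall : ∀ b : Measure Z, IsProbabilityMeasure b → Ergodic R b → Fcl G R b) {a : Measure Z} [IsProbabilityMeasure a]
    (ha : Ergodic R a) (f : C(Z, ℂ)) (hf : ∀ x, ‖f x‖ ≤ 1) (h0 : ∫ x, f x ∂a = 0) {ε : ℝ} (hε : 0 < ε) :
    ∃ n, AA R f ε n a := by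
  have hsb : StandardBorelSpace Z := by
    let _ : MetricSpace Z := TopologicalSpace.metrizableSpaceMetric Z
    have : PolishSpace Z := inferInstance
    infer_instance
  have htot : ∀ (n : ℕ), 0 < n → ∀ b' : Measure Z, IsProbabilityMeasure b' → Ergodic R b' → Ergodic R^[n] b' :=
    fun n hn b' hb' he => fcl_pow hRc.measurable (hall b' hb' he) hn
  obtain ⟨Y, _, _, m, _, S, π, hD, hE, hπ, hc⟩ := hall a inferInstance ha
  have hK : AQ.KS m S (fun q c => ∃ a ∈ G, ∃ b ∈ G, c = (a * b) ^ q) := by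
    intro c hc1 hne
    obtain ⟨q0, h⟩ := hG c (hE c hc1) hne
    exact ⟨q0, fun q hq hp ⟨a, ha, b, hb, e⟩ => h q hq hp a ha b hb e⟩
  have hF : Bd fun y => f (π y) :=
    ⟨f.continuous.measurable.comp hπ.measurable, 1, fun y => hf _⟩
  have hF0 : ∫ y, f (π y) ∂m = 0 := by
    rw [← h0, ← hπ.map_eq, integral_map hπ.measurable.aemeasurable f.continuous.measurable.aestronglyMeasurable]
  obtain ⟨n, hn⟩ := AQ.sju hD hK hF hF0 ε hε
  have hfB : Bd fun z => f z := ⟨f.continuous.measurable, 1, hf⟩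
  refine ⟨n, fun p q hp hq hpq hnq => face_bound (hRc.iterate p) (hRc.iterate q) (htot p hp.pos a inferInstance ha) f ?_⟩
  intro lam hl hle hl1
  -- the second marginal
  have hbe : Ergodic R^[q] (lam.map Prod.snd) :=
    erg_factor hle ⟨measurable_snd, rfl⟩ (hRc.iterate q).measurable (Eventually.of_forall fun w => rfl)
  have hbp : IsProbabilityMeasure (lam.map Prod.snd) := Measure.isProbabilityMeasure_map measurable_snd.aemeasurable
  have hbR : Ergodic R (lam.map Prod.snd) := erg_avg hRc.measurable hq.pos hbe (htot q hq.pos)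
  obtain ⟨Y', _, _, m', _, S', π', hD', hE', hπ', hc'⟩ := hall _ hbp hbR
  refine lift (hR.iter p) (hR.iter q) (AQ.erg_pow hD hp.pos) (AQ.erg_pow hD' hq.pos) hπ (ae_iter hD.pres hc p) hπ'
    (ae_iter hD'.pres hc' q) hl hle.toMeasurePreserving hl1 rfl hfB hfB fun ρ r0 r1 r2 r3 => ?_
  refine hn Y' m' S' hD' ?_ p q ρ ⟨r0, r1, ⟨measurable_fst, r2⟩, ⟨measurable_snd, r3⟩, hp, hq, hpq⟩ hnq
    (fun y => f (π' y)) ⟨f.continuous.measurable.comp hπ'.measurable, 1, fun y => hf _⟩ ?_
  · rintro q c - ⟨x, y, hx, hy, e⟩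
    exact ⟨x, hE x hx, y, hE' y hy, e⟩
  · unfold nsq
    have h1 : ∫ y, ‖f (π' y)‖ ^ 2 ∂m' ≤ ∫ _, (1 : ℝ) ∂m' := by
      refine integral_mono_of_nonneg (Eventually.of_forall fun y => by positivity) (integrable_const _)
        (Eventually.of_forall fun y => ?_)
      exact pow_le_one₀ (norm_nonneg _) (hf _)
    simpa using h1

end Pool.Agent.Lib.MP_9fe581_an.AV
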