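import Pool.Agent.Lib.MP_9fe581_an.AV.Pt
import Pool.Agent.Lib.MP_9fe581_an.AV.LiftN

/-!
# AV, PtN: all couplings of a fixed ergodic measure are small, for continuous maps
-/

set_option autoImplicit false
set_option linter.unusedSectionVars false
set_option warn.classDefReducibility false

open Finset MeasureTheory Filter Topology ProbabilityTheory
open scoped ComplexConjugate ENNReal

namespace Pool.Agent.Lib.MP_9fe581_an.AV

open AP
open AH (BM)

private theorem inv_iter {Y : Type} [MeasurableSpace Y] {m : Measure Y} {S : Y → Y} (hD : AQ.Dst m S) (n : ℕ) :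
    ∃ R : Y → Y, Measurable R ∧ (∀ x, S^[n] (R x) = x) ∧ ∀ x, R (S^[n] x) = x := by
  obtain ⟨R, h1, h2, h3⟩ := hD.inv
  exact ⟨R^[n], h1.iterate n, fun x => (Function.LeftInverse.iterate h2 n) x,
    fun x => (Function.LeftInverse.iterate h3 n) x⟩

/-- **all couplings of one ergodic measure are small**, `R` continuous -/
theorem pt_n {Z : Type} [TopologicalSpace Z] [CompactSpace Z] [TopologicalSpace.MetrizableSpace Z] [MeasurableSpace Z]
    [BorelSpace Z] {G : Set ℂ} (hG : GOK G) {R : Z → Z} (hRc : Continuous R)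
    (hall : ∀ b : Measure Z, IsProbabilityMeasure b → Ergodic R b → Fcl G R b) {a : Measure Z} [IsProbabilityMeasure a]
    (ha : Ergodic R a) (f : C(Z, ℂ)) (hf : ∀ x, ‖f x‖ ≤ 1) (h0 : ∫ x, f x ∂a = 0) {ε : ℝ} (hε : 0 < ε) :
    ∃ n, AA R f ε n a := by
  have htot : ∀ (n : ℕ), 0 < n → ∀ b' : Measure Z, IsProbabilityMeasure b' → Ergodic R b' → Ergodic R^[n] b' :=
    fun n hn b' hb' he => fcl_pow hRc.measurable (hall b' hb' he) hn
  obtain ⟨Y, _, _, m, _, S, π, hD, hE, hπ, hc⟩ := hall a inferInstance ha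
  have hK : AQ.KS m S (fun q c => ∃ a ∈ G, ∃ b ∈ G, c = (a * b) ^ q) := by
    intro c hc1 hne
    obtain ⟨q0, h⟩ := hG c (hE c hc1) hne
    exact ⟨q0, fun q hq hp ⟨a, ha, b, hb, e⟩ => h q hq hp a ha b hb e⟩
  have hF : Bd fun y => f (π y) :=
    ⟨f.continuous.measurable.comp hπ.measurable, 1, fun y => hf _⟩
  have hF0 : ∫ y, f (π y) ∂m = 0 := by
    rw [← h0, ← hπ.map_eq, integral_map hπ.measurable.aemeasurable f.continuous.measurable.aestronglyMeasurable]
  obtain ⟨n, hn⟩ := AQ.sju hD hK hF hF0 ε hε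
  have hfB : Bd fun z => f z := ⟨f.continuous.measurable, 1, hf⟩
  refine ⟨n, fun p q hp hq hpq hnq => face_bound (hRc.iterate p) (hRc.iterate q) (htot p hp.pos a inferInstance ha) f ?_⟩
  intro lam hl hle hl1
  -- the second marginal
  have hbe : Ergodic R^[q] (lam.map Prod.snd) :=
    erg_factor hle ⟨measurable_snd, rfl⟩ (hRc.iterate q).measurable (Eventually.of_forall fun w => rfl)
  have hbp : IsProbabilityMeasure (lam.map Prod.snd) := Measure.isProbabilityMeasure_map measurable_snd.aemeasurable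
  have hbR : Ergodic R (lam.map Prod.snd) := erg_avg hRc.measurable hq.pos hbe (htot q hq.pos)
  obtain ⟨Y', _, _, m', _, S', π', hD', hE', hπ', hc'⟩ := hall _ hbp hbR
  refine lift_n (hRc.iterate p) (hRc.iterate q) (AQ.erg_pow hD hp.pos) (inv_iter hD p) (AQ.erg_pow hD' hq.pos)
    (inv_iter hD' q) hπ (ae_iter hD.pres hc p) hπ'
    (ae_iter hD'.pres hc' q) hl hle.toMeasurePreserving hl1 rfl hfB hfB fun ρ r0 r1 r2 r3 => ?_
  refine hn Y' m' S' hD' ?_ p q ρ ⟨r0, r1, ⟨measurable_fst, r2⟩, ⟨measurable_snd, r3⟩, hp, hq, hpq⟩ hnq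
    (fun y => f (π' y)) ⟨f.continuous.measurable.comp hπ'.measurable, 1, fun y => hf _⟩ ?_
  · rintro q c - ⟨x, y, hx, hy, e⟩
    exact ⟨x, hE x hx, y, hE' y hy, e⟩
  · unfold nsq
    have h1 : ∫ y, ‖f (π' y)‖ ^ 2 ∂m' ≤ ∫ _, (1 : ℝ) ∂m' := by
      refine integral_mono_of_nonneg (Eventually.of_forall fun y => by positivity) (integrable_const _)
        (Eventually.of_forall fun y => ?_)
      exact pow_le_one₀ (norm_nonneg _) (hf _)
    simpa using h1

end Pool.Agent.Lib.MP_9fe581_an.AV
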