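import Pool.Agent.Lib.MP_9fe581_an.AQ.TwK

/-!
# AV, TwF: families of towers with all constants of level `0` in one finitely generated group
-/

set_option autoImplicit false
set_option linter.unusedSectionVars false
set_option warn.classDefReducibility false

open Finset MeasureTheory Filter Topology ProbabilityTheory
open scoped ComplexConjugate

namespace Pool.Agent.Lib.MP_9fe581_an.AV

open AP AQ
open HT (TX)

private theorem cocI_mem {κ : Type} {lev : κ → ℕ} {ψ : κ → TX κ → UnitAddCircle} {G : AddSubgroup UnitAddCircle}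
    (hG : ∀ i, lev i = 0 → ψ i 0 ∈ G) {m : κ →₀ ℤ} (hm : ∀ i, m i ≠ 0 → lev i = 0) : cocI ψ m 0 ∈ G := by
  unfold cocI Finsupp.sum
  refine sum_mem fun i hi => G.zsmul_mem (hG i (hm i (Finsupp.mem_support_iff.1 hi))) _

private theorem cocI_nsmul {κ : Type} (ψ : κ → TX κ → UnitAddCircle) (n : ℕ) (m : κ →₀ ℤ) :
    cocI ψ (n • m) 0 = n • cocI ψ m 0 := by
  have h1 : n • m = (n : ℤ) • m := (natCast_zsmul m n).symm
  unfold cocI
  rw [h1, Finsupp.sum_smul_index (fun i => zero_zsmul _), Finsupp.smul_sum]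
  refine Finsupp.sum_congr fun i _ => ?_
  rw [mul_smul, natCast_zsmul]

/-- **families of towers with finitely generated eigenvalues** -/
theorem itow_fin {ι : Type} {κ : ι → Type} {lev : ∀ i, κ i → ℕ} {ψ : ∀ i, κ i → TX (κ i) → UnitAddCircle}
    {ν : ∀ i, Measure (TX (κ i))} {T : ∀ i, TX (κ i) → TX (κ i)} (h : ∀ i, ITow (lev i) (ψ i) (ν i) (T i))
    {H : AddSubgroup UnitAddCircle} (hfg : H.FG) (hH : ∀ i l, lev i l = 0 → ψ i l 0 ∈ H) (i : ι) {c : ℂ}
    (hc : Eig (ν i) (T i) c) (hc1 : c ≠ 1) :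
    ∃ q0 : ℕ, ∀ q ≥ q0, ∀ j k a b, Eig (ν j) (T j) a → Eig (ν k) (T k) b → c ≠ (a * b) ^ q := by
  obtain ⟨m, hm, hcm⟩ := tw_ieig (h i) hc
  have hm0 : m ≠ 0 := by
    rintro rfl
    apply hc1
    rw [hcm]
    simp [cocI]
  have hfg' : AddGroup.FG H := (AddGroup.fg_iff_addSubgroup_fg H).2 hfg
  have hfin : Module.Finite ℤ H := Module.Finite.iff_addGroup_fg.2 hfg'
  set x : H := ⟨cocI (ψ i) m 0, cocI_mem (hH i) hm⟩ with hx
  have hx0 : ∀ n : ℕ, 0 < n → n • x ≠ 0 := by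
    intro n hn h0
    have h1 : n • cocI (ψ i) m 0 = 0 := congrArg Subtype.val h0
    rw [← cocI_nsmul] at h1
    refine (h i).base (n • m) ?_ ?_ h1
    · intro h2
      rcases smul_eq_zero.1 h2 with h3 | h3
      · exact hn.ne' h3
      · exact hm0 h3
    · intro l hl
      refine hm l fun h2 => hl ?_
      rw [Finsupp.smul_apply, h2, smul_zero]
  obtain ⟨q0, hq0⟩ := fg_div hx0
  refine ⟨q0, fun q hq j k a b ha hb hab => ?_⟩
  obtain ⟨ma, hma, ea⟩ := tw_ieig (h j) ha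
  obtain ⟨mb, hmb, eb⟩ := tw_ieig (h k) hb
  refine hq0 q hq ⟨cocI (ψ j) ma 0 + cocI (ψ k) mb 0, H.add_mem (cocI_mem (hH j) hma) (cocI_mem (hH k) hmb)⟩ ?_
  apply Subtype.ext
  show q • (cocI (ψ j) ma 0 + cocI (ψ k) mb 0) = cocI (ψ i) m 0
  apply AddCircle.injective_toCircle (one_ne_zero' ℝ)
  apply Circle.ext
  rw [← hcm, hab, ea, eb, AddCircle.toCircle_nsmul, AddCircle.toCircle_add]
  simp

end Pool.Agent.Lib.MP_9fe581_an.AV
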